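import Mathlib

set_option autoImplicit false
set_option linter.all false

/-!
# Lower bound for the order of a group containing all groups of order `p ^ n`
-/

namespace Pool.Agent.H596R3.CovLow

/-- the central extension of `V` by `W` given by a biadditive map -/
structure Hei (V W : Type) [AddCommGroup V] [AddCommGroup W] (B : V →+ V →+ W) : Type where
  v : V
  w : W

variable {V W : Type} [AddCommGroup V] [AddCommGroup W] {B : V →+ V →+ W}

namespace Hei

theorem ext' {x y : Hei V W B} (h1 : x.v = y.v) (h2 : x.w = y.w) : x = y := by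
  cases x; cases y; simp_all

instance : Mul (Hei V W B) := ⟨fun x y => ⟨x.v + y.v, x.w + y.w + B x.v y.v⟩⟩
instance : One (Hei V W B) := ⟨⟨0, 0⟩⟩
instance : Inv (Hei V W B) := ⟨fun x => ⟨-x.v, -x.w + B x.v x.v⟩⟩

@[simp] theorem mul_v (x y : Hei V W B) : (x * y).v = x.v + y.v := rfl
@[simp] theorem mul_w (x y : Hei V W B) : (x * y).w = x.w + y.w + B x.v y.v := rfl
@[simp] theorem one_v : (1 : Hei V W B).v = 0 := rfl
@[simp] theorem one_w : (1 : Hei V W B).w = 0 := rfl
@[simp] theorem inv_v (x : Hei V W B) : (x⁻¹).v = -x.v := rfl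
@[simp] theorem inv_w (x : Hei V W B) : (x⁻¹).w = -x.w + B x.v x.v := rfl

instance : Group (Hei V W B) :=
  Group.ofLeftAxioms
    (fun x y z => ext' (by simp [add_assoc]) (by simp [AddMonoidHom.add_apply]; abel))
    (fun x => ext' (by simp) (by simp))
    (fun x => ext' (by simp) (by simp))

/-- the underlying set -/
def equivProd : Hei V W B ≃ V × W where
  toFun x := (x.v, x.w)
  invFun x := ⟨x.1, x.2⟩
  left_inv _ := rfl
  right_inv _ := rfl

end Hei

/-- pairs `i < j` -/
abbrev Prs (d : ℕ) : Type := {P : Fin d × Fin d // P.1 < P.2}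

variable {p : ℕ} {d r : ℕ}

/-- the biadditive map -/
def bil (b : Prs d → (Fin r → ZMod p)) : (Fin d → ZMod p) →+ (Fin d → ZMod p) →+ (Fin r → ZMod p) :=
  AddMonoidHom.mk' (fun x => AddMonoidHom.mk' (fun y => ∑ P : Prs d, (x P.1.1 * y P.1.2) • b P)
      (fun y z => by
        rw [← Finset.sum_add_distrib]
        exact Finset.sum_congr rfl (fun P _ => by rw [Pi.add_apply, mul_add, add_smul])))
    (fun x y => by
      refine AddMonoidHom.ext (fun z => ?_)
      show ∑ P : Prs d, ((x + y) P.1.1 * z P.1.2) • b P =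
        ∑ P : Prs d, (x P.1.1 * z P.1.2) • b P + ∑ P : Prs d, (y P.1.1 * z P.1.2) • b P
      rw [← Finset.sum_add_distrib]
      exact Finset.sum_congr rfl (fun P _ => by rw [Pi.add_apply, add_mul, add_smul]))

theorem bil_apply (b : Prs d → (Fin r → ZMod p)) (x y : Fin d → ZMod p) :
    bil b x y = ∑ P : Prs d, (x P.1.1 * y P.1.2) • b P := rfl

theorem bil_single (b : Prs d → (Fin r → ZMod p)) (P : Prs d) :
    bil b (Pi.single P.1.1 1) (Pi.single P.1.2 1) = b P := by
  rw [bil_apply, Finset.sum_eq_single P]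
  · simp
  · intro Q _ hQ
    by_cases h1 : Q.1.1 = P.1.1
    · have h2 : Q.1.2 ≠ P.1.2 := by
        intro h2
        exact hQ (Subtype.ext (Prod.ext h1 h2))
      simp [Pi.single_eq_of_ne h2]
    · simp [Pi.single_eq_of_ne h1]
  · simp

theorem bil_single' (b : Prs d → (Fin r → ZMod p)) (P : Prs d) :
    bil b (Pi.single P.1.2 1) (Pi.single P.1.1 1) = 0 := by
  rw [bil_apply]
  apply Finset.sum_eq_zero
  intro Q _
  by_cases h1 : Q.1.1 = P.1.2
  · have h2 : Q.1.2 ≠ P.1.1 := by
      intro h2
      have h3 := Q.2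
      have h4 := P.2
      rw [h1, h2] at h3
      exact absurd h3 (not_lt.2 h4.le)
    simp [Pi.single_eq_of_ne h2]
  · simp [Pi.single_eq_of_ne h1]

/-- the group attached to `b` -/
abbrev Gp (b : Prs d → (Fin r → ZMod p)) : Type := Hei (Fin d → ZMod p) (Fin r → ZMod p) (bil b)

/-- the central subgroup as a homomorphism -/
def inW (b : Prs d → (Fin r → ZMod p)) : Multiplicative (Fin r → ZMod p) →* Gp b where
  toFun w := ⟨0, w.toAdd⟩
  map_one' := rfl
  map_mul' x y := Hei.ext' (by simp) (by simp)

def gen (b : Prs d → (Fin r → ZMod p)) (i : Fin d) : Gp b := ⟨Pi.single i 1, 0⟩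

theorem comm_gen (b : Prs d → (Fin r → ZMod p)) (P : Prs d) :
    inW b (Multiplicative.ofAdd (b P)) = gen b P.1.1 * gen b P.1.2 * (gen b P.1.2 * gen b P.1.1)⁻¹ := by
  rw [eq_mul_inv_iff_mul_eq]
  apply Hei.ext'
  · show (0 : Fin d → ZMod p) + (Pi.single P.1.2 1 + Pi.single P.1.1 1) =
      Pi.single P.1.1 1 + Pi.single P.1.2 1
    rw [zero_add, add_comm]
  · show b P + (0 + 0 + bil b (Pi.single P.1.2 1) (Pi.single P.1.1 1)) +
      bil b 0 (Pi.single P.1.2 1 + Pi.single P.1.1 1) =
      0 + 0 + bil b (Pi.single P.1.1 1) (Pi.single P.1.2 1)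
    rw [bil_single, bil_single']
    simp

theorem card_Gp [NeZero p] (b : Prs d → (Fin r → ZMod p)) : Nat.card (Gp b) = p ^ (d + r) := by
  rw [Nat.card_congr Hei.equivProd, Nat.card_prod]
  simp [pow_add]

/-- a homomorphism on `W` is determined by the images of the basis vectors -/
theorem hom_W {G : Type} [Group G] [NeZero p] (f g : Multiplicative (Fin r → ZMod p) →* G)
    (h : ∀ k, f (Multiplicative.ofAdd (Pi.single k 1)) = g (Multiplicative.ofAdd (Pi.single k 1))) :
    f = g := by
  have h1 : ∀ (k : Fin r) (a : ZMod p), f (Multiplicative.ofAdd (Pi.single k a)) =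
      g (Multiplicative.ofAdd (Pi.single k a)) := by
    intro k a
    have e : (Pi.single k a : Fin r → ZMod p) = a.val • Pi.single k 1 := by
      rw [← Pi.single_smul]
      simp
    rw [e, ofAdd_nsmul, map_pow, map_pow, h]
  refine MonoidHom.ext (fun x => ?_)
  have e : x.toAdd = ∑ k, Pi.single k (x.toAdd k) := (Finset.univ_sum_single _).symm
  have h2 : ∀ s : Finset (Fin r), f (Multiplicative.ofAdd (∑ k ∈ s, Pi.single k (x.toAdd k))) =
      g (Multiplicative.ofAdd (∑ k ∈ s, Pi.single k (x.toAdd k))) := by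
    classical
    intro s
    induction s using Finset.induction_on with
    | empty => simp
    | insert k s hk ih => rw [Finset.sum_insert hk, ofAdd_add, map_mul, map_mul, ih, h1]
  have := h2 Finset.univ
  rw [← e] at this
  simpa using this

theorem card_Prs (d : ℕ) : Nat.card (Prs d) = d * (d - 1) / 2 := by
  have e : Prs d ≃ (Σ j : Fin d, Fin j.1) :=
    { toFun := fun P => ⟨P.1.2, ⟨P.1.1.1, P.2⟩⟩
      invFun := fun x => ⟨(⟨x.2.1, x.2.2.trans x.1.2⟩, x.1), x.2.2⟩
      left_inv := fun P => rfl
      right_inv := fun x => rfl }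
  rw [Nat.card_congr e, Nat.card_sigma]
  simp only [Nat.card_eq_fintype_card, Fintype.card_fin]
  rw [Fin.sum_univ_eq_sum_range (fun i => i) d, Finset.sum_range_id]

/-- the parameter space -/
abbrev Par (p d r : ℕ) (ι : Fin r ↪ Prs d) : Type :=
  {b : Prs d → (Fin r → ZMod p) // ∀ k, b (ι k) = Pi.single k 1}

theorem card_Par [NeZero p] (ι : Fin r ↪ Prs d) :
    Nat.card (Par p d r ι) = p ^ (r * (Nat.card (Prs d) - r)) := by
  classical
  have e : Par p d r ι ≃ ({P : Prs d // ¬ ∃ k, ι k = P} → (Fin r → ZMod p)) :=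
    { toFun := fun b P => b.1 P.1
      invFun := fun c => ⟨fun P => if h : ∃ k, ι k = P then Pi.single h.choose 1 else c ⟨P, h⟩, by
        intro k
        have h : ∃ k', ι k' = ι k := ⟨k, rfl⟩
        show (if h : ∃ k', ι k' = ι k then (Pi.single h.choose 1 : Fin r → ZMod p)
          else c ⟨ι k, h⟩) = _
        rw [dif_pos h, ι.injective h.choose_spec]⟩
      left_inv := by
        rintro ⟨b, hb⟩
        apply Subtype.ext
        funext P
        by_cases h : ∃ k, ι k = P
        · show (if h : ∃ k, ι k = P then (Pi.single h.choose 1 : Fin r → ZMod p) else b P) = _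
          rw [dif_pos h, ← hb, h.choose_spec]
        · show (if h : ∃ k, ι k = P then (Pi.single h.choose 1 : Fin r → ZMod p) else b P) = _
          rw [dif_neg h]
      right_inv := by
        intro c
        funext P
        show (if h : ∃ k, ι k = P.1 then (Pi.single h.choose 1 : Fin r → ZMod p)
          else c ⟨P.1, h⟩) = _
        rw [dif_neg P.2] }
  have h1 : Nat.card {P : Prs d // ¬ ∃ k, ι k = P} = Nat.card (Prs d) - r := by
    rw [Nat.card_eq_fintype_card, Nat.card_eq_fintype_card, Fintype.card_subtype_compl]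
    congr 1
    have : Fintype.card {P : Prs d // ∃ k, ι k = P} = Fintype.card (Fin r) :=
      Fintype.card_congr (Equiv.ofInjective ι ι.injective).symm
    rw [this, Fintype.card_fin]
  rw [Nat.card_congr e, Nat.card_fun, Nat.card_fun, h1]
  simp [← pow_mul]

/-- the counting inequality -/
theorem count [hp : Fact p.Prime] {G : Type} [Group G] [Finite G] (hr : r ≤ Nat.card (Prs d))
    (h : ∀ (H : Type) [Group H], Nat.card H = p ^ (d + r) → ∃ f : H →* G, Function.Injective f) :
    p ^ (r * (Nat.card (Prs d) - r)) ≤ Nat.card G ^ d := by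
  classical
  haveI : NeZero p := ⟨hp.out.ne_zero⟩
  obtain ⟨ι⟩ : Nonempty (Fin r ↪ Prs d) := by
    rw [Function.Embedding.nonempty_iff_card_le, Fintype.card_fin, ← Nat.card_eq_fintype_card]
    exact hr
  rw [← card_Par (p := p) ι]
  have h2 : ∀ b : Par p d r ι, ∃ f : Gp b.1 →* G, Function.Injective f := fun b =>
    h (Gp b.1) (card_Gp b.1)
  choose φ hφ using h2
  have h3 : Function.Injective (fun b : Par p d r ι => (fun i : Fin d => φ b (gen b.1 i))) := by
    intro b b' hbb
    have h4 : ∀ i, φ b (gen b.1 i) = φ b' (gen b'.1 i) := fun i => congrFun hbb i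
    have h5 : ∀ P : Prs d, φ b (inW b.1 (Multiplicative.ofAdd (b.1 P))) =
        φ b' (inW b'.1 (Multiplicative.ofAdd (b'.1 P))) := by
      intro P
      rw [comm_gen, comm_gen]
      simp only [map_mul, map_inv, h4]
    have h6 : (φ b).comp (inW b.1) = (φ b').comp (inW b'.1) := by
      apply hom_W
      intro k
      have := h5 (ι k)
      rw [b.2 k, b'.2 k] at this
      exact this
    apply Subtype.ext
    funext P
    have h7 := h5 P
    have h8 : φ b' (inW b'.1 (Multiplicative.ofAdd (b'.1 P))) =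
        φ b (inW b.1 (Multiplicative.ofAdd (b'.1 P))) :=
      (DFunLike.congr_fun h6 (Multiplicative.ofAdd (b'.1 P))).symm
    rw [h8] at h7
    have h9 := hφ b h7
    exact congrArg Hei.w h9
  have h10 := Nat.card_le_card_of_injective _ h3
  rw [Nat.card_fun] at h10
  simpa using h10

end Pool.Agent.H596R3.CovLow
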