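import Pool.Agent.H596R3.Fam

set_option autoImplicit false
set_option linter.all false

namespace Pool.Agent.H596R3

variable {G : Type} [Group G]

/-- the subgroup generated by the elements of 3-power order of `K` -/
def T3 (K : Subgroup G) : Subgroup G := Subgroup.closure {x | x ∈ K ∧ ∃ k : ℕ, x ^ 3 ^ k = 1}

theorem mem_T3 {K : Subgroup G} {x : G} (hx : x ∈ K) {k : ℕ} (h : x ^ 3 ^ k = 1) : x ∈ T3 K :=
  Subgroup.subset_closure ⟨hx, k, h⟩

theorem T3_le (K : Subgroup G) : T3 K ≤ K := (Subgroup.closure_le _).2 (fun _ hx => hx.1)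

theorem T3_mono {K L : Subgroup G} (h : K ≤ L) : T3 K ≤ T3 L :=
  Subgroup.closure_mono (fun _ hx => ⟨h hx.1, hx.2⟩)

theorem T3_conj {K : Subgroup G} {g : G} (hg : ∀ x ∈ K, g * x * g⁻¹ ∈ K) :
    ∀ t ∈ T3 K, g * t * g⁻¹ ∈ T3 K := by
  intro t ht
  have h1 : T3 K ≤ (T3 K).comap (MulAut.conj g).toMonoidHom := by
    refine (Subgroup.closure_le _).2 ?_
    rintro x ⟨hx, k, hk⟩
    refine mem_T3 (hg x hx) (k := k) ?_
    rw [← map_pow, hk, map_one]
  exact h1 ht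

theorem T3_normal {K : Subgroup G} (h : K.Normal) : (T3 K).Normal :=
  ⟨fun t ht g => T3_conj (fun x hx => h.conj_mem x hx g) t ht⟩

/-- the order of a finite group without its 3-part -/
theorem card_split (G : Type) [Group G] [Finite G] :
    ∃ a m : ℕ, Nat.Coprime m 3 ∧ ∀ g : G, (g ^ m) ^ 3 ^ a = 1 ∧ (g ^ 3 ^ a) ^ m = 1 := by
  obtain ⟨a, m, hm, h⟩ := Nat.exists_eq_pow_mul_and_not_dvd (Nat.card_pos (α := G)).ne' 3 (by norm_num)
  refine ⟨a, m, ((Nat.Prime.coprime_iff_not_dvd (by norm_num)).2 hm).symm, fun g => ⟨?_, ?_⟩⟩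
  · rw [← pow_mul, mul_comm m, ← h, pow_card_eq_one']
  · rw [← pow_mul, ← h, pow_card_eq_one']

theorem pow_back {x : G} {k m : ℕ} (hx : x ^ 3 ^ k = 1) (hm : Nat.Coprime m 3) :
    ∃ j : ℕ, (x ^ m) ^ j = x := by
  apply exists_pow_eq_self_of_coprime
  have h1 : orderOf x ∣ 3 ^ k := orderOf_dvd_of_pow_eq_one hx
  exact Nat.Coprime.coprime_dvd_right h1 (Nat.Coprime.pow_right k hm)

theorem T3_map [Finite G] {H : Type} [Group H] (f : G →* H) (K : Subgroup G) :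
    T3 (K.map f) = (T3 K).map f := by
  apply le_antisymm
  · refine (Subgroup.closure_le _).2 ?_
    rintro _ ⟨⟨y, hy, rfl⟩, k, hk⟩
    obtain ⟨a, m, hm, h⟩ := card_split G
    obtain ⟨j, hj⟩ := pow_back hk hm
    rw [SetLike.mem_coe, ← hj, ← map_pow, ← map_pow]
    exact ⟨_, Subgroup.pow_mem _ (mem_T3 (K.pow_mem hy m) (h y).1) j, rfl⟩
  · rw [Subgroup.map_le_iff_le_comap]
    refine (Subgroup.closure_le _).2 ?_
    rintro x ⟨hx, k, hk⟩
    exact mem_T3 (k := k) ⟨x, hx, rfl⟩ (by rw [← map_pow, hk, map_one])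

/-- the class property for a subgroup -/
def XS (K : Subgroup G) : Prop := ∃ 𝒞, Fam (T3 K) 𝒞

theorem Fam.map_gen {H : Type} [Group H] {T : Subgroup G} {𝒞 : Set (Subgroup G)} (h : Fam T 𝒞)
    (f : G →* H) (hf : ∀ C ∈ 𝒞, (∀ c ∈ C, f c = 1 → c = 1) ∨ (∀ c ∈ C, f c = 1)) :
    Fam (T.map f) {D | ∃ C ∈ 𝒞, (∀ c ∈ C, f c = 1 → c = 1) ∧ D = C.map f} := by
  refine ⟨?_, ?_, ?_, ?_, ?_⟩
  · rintro _ ⟨C, hC, hinj, rfl⟩
    obtain ⟨V, hV⟩ := h.fr C hC
    exact ⟨_, hV.map_of f hinj⟩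
  · rintro _ ⟨C, hC, hinj, rfl⟩
    exact Subgroup.map_mono (h.le C hC)
  · rintro _ ⟨C, hC, hinj, rfl⟩ _ ⟨t, ht, rfl⟩ _ ⟨c, hc, rfl⟩
    exact ⟨t * c * t⁻¹, h.nrm C hC t ht c hc, by simp⟩
  · rintro _ ⟨C, hC, hinj, rfl⟩ _ ⟨D, hD, hinj', rfl⟩ hne _ ⟨c, hc, rfl⟩ _ ⟨d, hd, rfl⟩
    have hCD : C ≠ D := fun h0 => hne (by rw [h0])
    rw [← map_mul, h.comm C hC D hD hCD c hc d hd, map_mul]
  · rintro _ ⟨t, ht, rfl⟩
    obtain ⟨k, hk⟩ := h.pg t ht
    refine ⟨k, ?_⟩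
    rw [← map_pow]
    have h1 : sSup 𝒞 ≤ (sSup {D | ∃ C ∈ 𝒞, (∀ c ∈ C, f c = 1 → c = 1) ∧ D = C.map f}).comap f := by
      apply sSup_le
      intro C hC
      rw [← Subgroup.map_le_iff_le_comap]
      rcases hf C hC with h2 | h2
      · exact le_sSup ⟨C, hC, h2, rfl⟩
      · rintro _ ⟨c, hc, rfl⟩
        rw [h2 c hc]
        exact Subgroup.one_mem _
    exact h1 hk

theorem Fam.of_map {H : Type} [Group H] {T : Subgroup G} (f : G →* H) (hf : Function.Injective f)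
    {𝒟 : Set (Subgroup H)} (h : Fam (T.map f) 𝒟) : Fam T {C | C.map f ∈ 𝒟} := by
  have hr : ∀ D ∈ 𝒟, ∀ W ≤ D, (W.comap f).map f = W := by
    intro D hD W hW
    rw [Subgroup.map_comap_eq_self]
    exact hW.trans ((h.le D hD).trans (by
      rintro _ ⟨x, -, rfl⟩
      exact ⟨x, rfl⟩))
  refine ⟨?_, ?_, ?_, ?_, ?_⟩
  · intro C hC
    obtain ⟨V, hV⟩ := h.fr _ hC
    refine ⟨V.comap f, Fr.of_map f hf ?_⟩
    rw [hr _ hC V hV.le]
    exact hV
  · intro C hC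
    exact (Subgroup.map_le_map_iff_of_injective hf).1 (h.le _ hC)
  · intro C hC t ht c hc
    have := h.nrm _ hC (f t) ⟨t, ht, rfl⟩ (f c) ⟨c, hc, rfl⟩
    rw [← map_mul, ← map_inv, ← map_mul] at this
    exact (Subgroup.mem_map_iff_mem hf).1 this
  · intro C hC D hD hne c hc d hd
    apply hf
    rw [map_mul, map_mul]
    exact h.comm _ hC _ hD (fun h0 => hne (Subgroup.map_injective hf h0)) _ ⟨c, hc, rfl⟩ _
      ⟨d, hd, rfl⟩
  · intro t ht
    obtain ⟨k, hk⟩ := h.pg (f t) ⟨t, ht, rfl⟩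
    refine ⟨k, ?_⟩
    have h1 : sSup 𝒟 ≤ (sSup {C : Subgroup G | C.map f ∈ 𝒟}).map f := by
      apply sSup_le
      intro D hD
      rw [← hr D hD D le_rfl]
      apply Subgroup.map_mono
      apply le_sSup
      show (D.comap f).map f ∈ 𝒟
      rw [hr D hD D le_rfl]
      exact hD
    have h2 := h1 hk
    rw [← map_pow] at h2
    exact (Subgroup.mem_map_iff_mem hf).1 h2

theorem XS.map [Finite G] {H : Type} [Group H] {K : Subgroup G} (h : XS K) (f : G →* H)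
    (hf : Function.Injective f) : XS (K.map f) := by
  obtain ⟨𝒞, h𝒞⟩ := h
  have h1 := h𝒞.map_gen f (fun C _ => Or.inl (fun c _ hc => hf (by rw [hc, map_one])))
  rw [← T3_map] at h1
  exact ⟨_, h1⟩

theorem XS.of_map [Finite G] {H : Type} [Group H] {K : Subgroup G} (f : G →* H)
    (hf : Function.Injective f) (h : XS (K.map f)) : XS K := by
  obtain ⟨𝒟, h𝒟⟩ := h
  rw [T3_map] at h𝒟
  exact ⟨_, Fam.of_map f hf h𝒟⟩

theorem XS_subtype [Finite G] (K : Subgroup G) : XS (⊤ : Subgroup K) ↔ XS K := by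
  have h1 : (⊤ : Subgroup K).map K.subtype = K := by
    rw [← MonoidHom.range_eq_map, Subgroup.range_subtype]
  constructor
  · intro h
    have := h.map K.subtype K.subtype_injective
    rwa [h1] at this
  · intro h
    refine XS.of_map K.subtype K.subtype_injective ?_
    rwa [h1]

/-- closure under normal subgroups -/
theorem XS_normal [Finite G] (h : XS (⊤ : Subgroup G)) {N : Subgroup G} (hN : N.Normal) : XS N := by
  obtain ⟨𝒞, h𝒞⟩ := h
  have hT' : (T3 N).Normal := T3_normal hN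
  have hle : T3 N ≤ T3 (⊤ : Subgroup G) := T3_mono le_top
  have key : ∀ C ∈ 𝒞, ¬ C ≤ T3 N → ∀ t ∈ T3 N, ∀ c ∈ C, t * c = c * t := by
    intro C hC hCN
    obtain ⟨V, hV⟩ := h𝒞.fr C hC
    have h1 : C ⊓ T3 N ≤ V := by
      by_cases hb : C ⊓ T3 N = ⊥
      · rw [hb]; exact bot_le
      · obtain ⟨h2, h3⟩ := hV.nor (N := C ⊓ T3 N) inf_le_left (fun c hc n hn =>
          Subgroup.mem_inf.2 ⟨C.mul_mem (C.mul_mem hc (Subgroup.mem_inf.1 hn).1) (C.inv_mem hc),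
            hT'.conj_mem n (Subgroup.mem_inf.1 hn).2 c⟩) hb
        rcases h3 with h3 | h3
        · rw [h3]
        · exfalso
          apply hCN
          rw [← h3]
          exact inf_le_right
    have h2 : T3 N ≤ Subgroup.centralizer (C : Set G) := by
      refine (Subgroup.closure_le _).2 ?_
      rintro x ⟨hx, k, hk⟩
      rw [SetLike.mem_coe, Subgroup.mem_centralizer_iff]
      intro c hc
      refine (hV.three hk (fun c hc => ?_) c hc).symm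
      apply h1
      have hxT : x ∈ T3 N := mem_T3 hx hk
      refine Subgroup.mem_inf.2 ⟨C.mul_mem (h𝒞.nrm C hC x (hle hxT) c hc) (C.inv_mem hc), ?_⟩
      have := (T3 N).mul_mem hxT (hT'.conj_mem x⁻¹ ((T3 N).inv_mem hxT) c)
      rwa [show x * c * x⁻¹ * c⁻¹ = x * (c * x⁻¹ * c⁻¹) by group]
    intro t ht c hc
    exact ((Subgroup.mem_centralizer_iff.1 (h2 ht)) c hc).symm
  refine ⟨𝒞 ∩ {C | C ≤ T3 N}, ?_, ?_, ?_, ?_, ?_⟩
  · rintro C ⟨hC, -⟩
    exact h𝒞.fr C hC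
  · rintro C ⟨-, hC⟩
    exact hC
  · rintro C ⟨hC, -⟩ t ht c hc
    exact h𝒞.nrm C hC t (hle ht) c hc
  · rintro C ⟨hC, -⟩ D ⟨hD, -⟩ hne c hc d hd
    exact h𝒞.comm C hC D hD hne c hc d hd
  · intro t ht
    obtain ⟨k, hk⟩ := h𝒞.pg t (hle ht)
    refine ⟨k, h𝒞.supp {C | C ≤ T3 N} hk ?_⟩
    intro C hC hCN c hc
    exact key C hC hCN _ (Subgroup.pow_mem _ ht _) c hc

end Pool.Agent.H596R3
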