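import Mathlib

set_option autoImplicit false
set_option linter.all false

/-!
# Monomial sections of small index in `p`-groups
-/

namespace Pool.Agent.H596R3.CovUp

/-- pull back a pair `(H', ψ')` along a surjection from a subgroup -/
theorem transfer {G Q A : Type} [Group G] [Group Q] [Group A] (M : Subgroup G) (π : M →* Q)
    (hπ : Function.Surjective π) (C : Subgroup G) (hCM : C ≤ M)
    (hinj : ∀ c : M, (c : G) ∈ C → π c = 1 → c = 1) (H' : Subgroup Q) (ψ' : H' →* A)
    (hC' : ∀ c : M, (c : G) ∈ C → π c ∈ H')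
    (hψ' : ∀ c : H', (∃ d : M, (d : G) ∈ C ∧ π d = c) → ψ' c = 1 → c = 1) :
    ∃ (H : Subgroup G) (ψ : H →* A), C ≤ H ∧ (∀ c : H, (c : G) ∈ C → ψ c = 1 → c = 1) ∧
      H.index = M.index * H'.index := by
  let e : (H'.comap π) ≃* ((H'.comap π).map M.subtype : Subgroup G) :=
    (H'.comap π).equivMapOfInjective M.subtype M.subtype_injective
  refine ⟨(H'.comap π).map M.subtype, (ψ'.comp (π.subgroupComap H')).comp e.symm.toMonoidHom,
    ?_, ?_, ?_⟩
  · intro c hc
    exact ⟨⟨c, hCM hc⟩, hC' ⟨c, hCM hc⟩ hc, rfl⟩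
  · intro c hc h1
    obtain ⟨d, rfl⟩ := e.surjective c
    have h2 : (((e.symm.toMonoidHom) (e d)) : (H'.comap π)) = d := e.symm_apply_apply d
    have h3 : ψ' ((π.subgroupComap H') d) = 1 := by
      have : ((ψ'.comp (π.subgroupComap H')).comp e.symm.toMonoidHom) (e d) =
        ψ' ((π.subgroupComap H') (e.symm.toMonoidHom (e d))) := rfl
      rw [this, h2] at h1
      exact h1
    have h4 : ((e d : ((H'.comap π).map M.subtype : Subgroup G)) : G) = ((d : M) : G) := rfl
    have h5 := hψ' _ ⟨d.1, by rw [← h4]; exact hc, rfl⟩ h3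
    have h6 : π d.1 = 1 := congrArg Subtype.val h5
    have h7 := hinj d.1 (by rw [← h4]; exact hc) h6
    have h8 : d = 1 := Subtype.ext h7
    rw [h8, map_one]
  · rw [Subgroup.index_map_subtype, Subgroup.index_comap_of_surjective _ hπ, mul_comm]

variable {p : ℕ}

theorem pgroup_of_card {G : Type} [Group G] [Finite G] [Fact p.Prime] {N : ℕ}
    (h : Nat.card G ∣ p ^ N) : IsPGroup p G := by
  intro g
  refine ⟨N, ?_⟩
  exact orderOf_dvd_iff_pow_eq_one.1 ((orderOf_dvd_natCard g).trans h)

/-- in a cyclic `p`-group an element that is not a `p`-th power generates -/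
theorem gen_or_pow {G : Type} [Group G] [Finite G] [hp : Fact p.Prime] {N : ℕ} {C : Subgroup G}
    (hcyc : IsCyclic C) (hG : Nat.card G ∣ p ^ N) {z : G} (hz : z ∈ C) :
    (∃ c ∈ C, z = c ^ p) ∨ C ≤ Subgroup.zpowers z := by
  obtain ⟨⟨c₀, hc₀⟩, hgen⟩ := hcyc.exists_generator
  have hmem : ∀ x ∈ C, ∃ j : ℕ, c₀ ^ j = x := by
    intro x hx
    obtain ⟨k, hk⟩ := Subgroup.mem_zpowers_iff.1 (hgen ⟨x, hx⟩)
    have h1 : c₀ ^ k = x := congrArg Subtype.val hk
    obtain ⟨j, hj⟩ := (Submonoid.mem_powers_iff x c₀).1 (by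
      rw [mem_powers_iff_mem_zpowers]
      exact Subgroup.mem_zpowers_iff.2 ⟨k, h1⟩)
    exact ⟨j, hj⟩
  obtain ⟨j, hj⟩ := hmem z hz
  by_cases hpj : p ∣ j
  · left
    obtain ⟨i, rfl⟩ := hpj
    exact ⟨c₀ ^ i, C.pow_mem hc₀ i, by rw [← hj, ← pow_mul, mul_comm]⟩
  · right
    have hcop : Nat.Coprime j (orderOf c₀) := by
      have h1 : orderOf c₀ ∣ p ^ N := (orderOf_dvd_natCard c₀).trans hG
      exact Nat.Coprime.coprime_dvd_right h1
        (Nat.Coprime.pow_right N ((Nat.Prime.coprime_iff_not_dvd hp.out).2 hpj).symm)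
    obtain ⟨m, hm⟩ := exists_pow_eq_self_of_coprime hcop
    rw [hj] at hm
    intro x hx
    obtain ⟨i, hi⟩ := hmem x hx
    rw [← hi, ← hm]
    exact Subgroup.pow_mem _ (Subgroup.pow_mem _ (Subgroup.mem_zpowers z) m) i

/-- embedding of a cyclic group -/
theorem cyc_emb [hp : Fact p.Prime] {N : ℕ} (C : Type) [Group C] [Finite C] (hcyc : IsCyclic C)
    (hC : Nat.card C ∣ p ^ N) :
    ∃ f : C →* Multiplicative (ZMod (p ^ N)), Function.Injective f := by
  haveI : NeZero (p ^ N) := ⟨pow_ne_zero _ hp.out.ne_zero⟩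
  obtain ⟨j, hj, hcard⟩ := (Nat.dvd_prime_pow hp.out).1 hC
  have h1 : Nat.card (Multiplicative (ZMod (p ^ N))) = p ^ N := by
    simp
  obtain ⟨K, hK⟩ := Sylow.exists_subgroup_card_pow_prime (G := Multiplicative (ZMod (p ^ N))) p
    (n := j) (by rw [h1]; exact pow_dvd_pow p hj)
  haveI := hcyc
  let e : C ≃* K := mulEquivOfCyclicCardEq (by rw [hcard, hK])
  exact ⟨K.subtype.comp e.toMonoidHom, K.subtype_injective.comp e.injective⟩

theorem card_mul_index' {G : Type} [Group G] [Finite G] (H : Subgroup G) :
    Nat.card H * H.index = Nat.card G := H.card_mul_index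

/-- the property proved by induction -/
def Good (p N : ℕ) (G : Type) [Group G] (C : Subgroup G) : Prop :=
  ∃ (H : Subgroup G) (ψ : H →* Multiplicative (ZMod (p ^ N))), C ≤ H ∧
      (∀ c : H, (c : G) ∈ C → ψ c = 1 → c = 1) ∧ H.index ^ 2 * Nat.card C ≤ Nat.card G

/-- reduction through a subgroup `M` and a central subgroup generated by `y` of order `p` -/
theorem step_quot [hp : Fact p.Prime] {N : ℕ} {G : Type} [Group G] [Finite G] {C M : Subgroup G}
    (hG : Nat.card G ∣ p ^ N) (hC : C ≤ M) (hCM : ∀ c ∈ C, ∀ m ∈ M, c * m = m * c)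
    (hcyc : IsCyclic C) (hMi : M.index ≤ p) {y : G} (hy : y ∈ M) (hyM : ∀ m ∈ M, y * m = m * y)
    (hyC : y ∉ C) (hyp : y ^ p = 1)
    (ih : ∀ (Q : Type) [Group Q] [Finite Q] (D : Subgroup Q), Nat.card Q ∣ p ^ N →
      D ≤ Subgroup.center Q → IsCyclic D → 2 * Nat.card Q ≤ Nat.card G → Good p N Q D) :
    Good p N G C := by
  have hy1 : y ≠ 1 := fun h => hyC (h ▸ C.one_mem)
  have hord : orderOf y = p := orderOf_eq_prime hyp hy1
  let y' : M := ⟨y, hy⟩
  have hcen : y' ∈ Subgroup.center M := by
    rw [Subgroup.mem_center_iff]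
    rintro ⟨m, hm⟩
    exact Subtype.ext (hyM m hm).symm
  have hnor : (Subgroup.zpowers y').Normal := by
    constructor
    intro n hn g
    have h1 : n ∈ Subgroup.center M := (Subgroup.zpowers_le.2 hcen) hn
    rw [Subgroup.mem_center_iff] at h1
    rw [h1 g]
    simpa using hn
  have hordy' : orderOf y' = p := by
    rw [← hord]
    exact (orderOf_injective M.subtype M.subtype_injective y').symm
  let π : M →* M ⧸ Subgroup.zpowers y' := QuotientGroup.mk' _
  have hπ : Function.Surjective π := QuotientGroup.mk'_surjective _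
  have hinj : ∀ c : M, (c : G) ∈ C → π c = 1 → c = 1 := by
    intro c hc h1
    have h2 : c ∈ Subgroup.zpowers y' := by
      rwa [← QuotientGroup.eq_one_iff]
    by_contra hc1
    apply hyC
    -- c generates the same group
    have h3 : orderOf c ∣ p := by
      rw [← hordy']
      exact orderOf_dvd_of_mem_zpowers h2
    have h4 : orderOf c = p := by
      rcases (Nat.dvd_prime hp.out).1 h3 with h | h
      · exact absurd (orderOf_eq_one_iff.1 h) hc1
      · exact h
    have h5 : Subgroup.zpowers c = Subgroup.zpowers y' := by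
      apply Subgroup.eq_of_le_of_card_ge (Subgroup.zpowers_le.2 h2)
      rw [Nat.card_zpowers, Nat.card_zpowers, h4, hordy']
    have h6 : y' ∈ Subgroup.zpowers c := by
      rw [h5]; exact Subgroup.mem_zpowers y'
    have h7 : Subgroup.zpowers c ≤ C.subgroupOf M := Subgroup.zpowers_le.2 hc
    exact h7 h6
  -- the image of C
  let D : Subgroup (M ⧸ Subgroup.zpowers y') := (C.subgroupOf M).map π
  have hcardQ : Nat.card (M ⧸ Subgroup.zpowers y') * p = Nat.card M := by
    have h1 := Subgroup.card_eq_card_quotient_mul_card_subgroup (Subgroup.zpowers y')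
    rw [Nat.card_zpowers, hordy'] at h1
    exact h1.symm
  have hM : Nat.card M * M.index = Nat.card G := card_mul_index' M
  have hCcyc' : IsCyclic (C.subgroupOf M) := by
    haveI := hcyc
    exact isCyclic_of_surjective (Subgroup.subgroupOfEquivOfLe hC).symm.toMonoidHom
      (Subgroup.subgroupOfEquivOfLe hC).symm.surjective
  have hDcard : Nat.card D = Nat.card C := by
    rw [← Nat.card_congr (Subgroup.subgroupOfEquivOfLe hC).toEquiv]
    refine (Nat.card_congr (Equiv.ofBijective
      (fun d : C.subgroupOf M => (⟨π d, d, d.2, rfl⟩ : D)) ?_)).symm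
    constructor
    · intro a b hab
      have h1 : π a = π b := congrArg Subtype.val hab
      have h2 : π ((a : M) * (b : M)⁻¹) = 1 := by rw [map_mul, map_inv, h1, mul_inv_cancel]
      have h3 := hinj ((a : M) * (b : M)⁻¹) (C.mul_mem a.2 (C.inv_mem b.2)) h2
      exact Subtype.ext (mul_inv_eq_one.1 h3)
    · rintro ⟨_, d, hd, rfl⟩
      exact ⟨⟨d, hd⟩, rfl⟩
  have hDcyc : IsCyclic D := by
    haveI := hCcyc'
    exact isCyclic_of_surjective (π.subgroupMap (C.subgroupOf M)) (π.subgroupMap_surjective _)
  have hDcen : D ≤ Subgroup.center _ := by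
    rintro _ ⟨c, hc, rfl⟩
    rw [Subgroup.mem_center_iff]
    intro g
    obtain ⟨m, rfl⟩ := hπ g
    rw [← map_mul, ← map_mul]
    congr 1
    exact Subtype.ext (hCM c hc m m.2).symm
  have h2Q : 2 * Nat.card (M ⧸ Subgroup.zpowers y') ≤ Nat.card G := by
    calc 2 * Nat.card (M ⧸ Subgroup.zpowers y') ≤ p * Nat.card (M ⧸ Subgroup.zpowers y') :=
          Nat.mul_le_mul_right _ hp.out.two_le
      _ = Nat.card M := by rw [mul_comm, hcardQ]
      _ ≤ Nat.card G := by
          rw [← hM]
          exact Nat.le_mul_of_pos_right _ (Nat.pos_of_ne_zero M.index_ne_zero_of_finite)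
  obtain ⟨H', ψ', h1, h2, h3⟩ := ih (M ⧸ Subgroup.zpowers y') D
    ((Dvd.intro _ hcardQ).trans ((Dvd.intro _ hM).trans hG)) hDcen hDcyc h2Q
  obtain ⟨H, ψ, h4, h5, h6⟩ := transfer M π hπ C hC hinj H' ψ'
    (fun c hc => h1 ⟨c, hc, rfl⟩)
    (by
      rintro c ⟨d, hd, hdc⟩ hc
      exact h2 c ⟨d, hd, hdc⟩ hc)
  refine ⟨H, ψ, h4, h5, ?_⟩
  rw [h6]
  rw [hDcard] at h3
  calc (M.index * H'.index) ^ 2 * Nat.card C = M.index ^ 2 * (H'.index ^ 2 * Nat.card C) := by ring
    _ ≤ M.index ^ 2 * Nat.card (M ⧸ Subgroup.zpowers y') := Nat.mul_le_mul_left _ h3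
    _ = M.index * (M.index * Nat.card (M ⧸ Subgroup.zpowers y')) := by ring
    _ ≤ M.index * (p * Nat.card (M ⧸ Subgroup.zpowers y')) :=
        Nat.mul_le_mul_left _ (Nat.mul_le_mul_right _ hMi)
    _ = Nat.card M * M.index := by rw [mul_comm p, hcardQ, mul_comm]
    _ = Nat.card G := hM

/-- the case of a larger cyclic central subgroup of `M` -/
theorem step_cyc [hp : Fact p.Prime] {N : ℕ} {G : Type} [Group G] [Finite G] {C M : Subgroup G}
    (hG : Nat.card G ∣ p ^ N) (hM1 : M ≠ ⊤) (hMi : M.index ≤ p) {y : G} (hy : y ∈ M)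
    (hyM : ∀ m ∈ M, y * m = m * y) (hyC : y ∉ C) (hyp : C ≤ Subgroup.zpowers (y ^ p))
    (ih : ∀ (Q : Type) [Group Q] [Finite Q] (D : Subgroup Q), Nat.card Q ∣ p ^ N →
      D ≤ Subgroup.center Q → IsCyclic D → 2 * Nat.card Q ≤ Nat.card G → Good p N Q D) :
    Good p N G C := by
  have hyz : C ≤ Subgroup.zpowers y := hyp.trans (Subgroup.zpowers_le.2 (Subgroup.pow_mem _
    (Subgroup.mem_zpowers y) p))
  have hzM : Subgroup.zpowers y ≤ M := Subgroup.zpowers_le.2 hy
  have hC : C ≤ M := hyz.trans hzM
  have hy1 : y ≠ 1 := fun h => hyC (h ▸ C.one_mem)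
  have hdvd : p ∣ orderOf y := by
    obtain ⟨j, hj, hcard⟩ := (Nat.dvd_prime_pow hp.out).1 ((orderOf_dvd_natCard y).trans hG)
    rcases Nat.eq_zero_or_pos j with h0 | h0
    · rw [h0, pow_zero] at hcard
      exact absurd (orderOf_eq_one_iff.1 hcard) hy1
    · rw [hcard]
      exact dvd_pow_self p (by omega)
  have hM : Nat.card M * M.index = Nat.card G := card_mul_index' M
  -- card of C
  have hcardC : p * Nat.card C ≤ Nat.card (Subgroup.zpowers y) := by
    have h1 : Nat.card C ≤ orderOf (y ^ p) := by
      rw [← Nat.card_zpowers]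
      exact Nat.card_le_card_of_injective _ (Subgroup.inclusion_injective hyp)
    rw [orderOf_pow_of_dvd hp.out.ne_zero hdvd] at h1
    rw [Nat.card_zpowers]
    calc p * Nat.card C ≤ p * (orderOf y / p) := Nat.mul_le_mul_left _ h1
      _ = orderOf y := Nat.mul_div_cancel' hdvd
  let D : Subgroup M := (Subgroup.zpowers y).subgroupOf M
  have hDcard : Nat.card D = Nat.card (Subgroup.zpowers y) :=
    Nat.card_congr (Subgroup.subgroupOfEquivOfLe hzM).toEquiv
  have hDcyc : IsCyclic D :=
    isCyclic_of_surjective (Subgroup.subgroupOfEquivOfLe hzM).symm.toMonoidHom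
      (Subgroup.subgroupOfEquivOfLe hzM).symm.surjective
  have hDcen : D ≤ Subgroup.center M := by
    rintro ⟨d, hdM⟩ hd
    rw [Subgroup.mem_center_iff]
    rintro ⟨m, hm⟩
    apply Subtype.ext
    have h1 : d ∈ Subgroup.zpowers y := hd
    obtain ⟨k, rfl⟩ := Subgroup.mem_zpowers_iff.1 h1
    have h2 : Commute y m := hyM m hm
    exact (h2.zpow_left k).eq.symm
  have h2M : 2 * Nat.card M ≤ Nat.card G := by
    rw [← hM, mul_comm]
    apply Nat.mul_le_mul_left
    by_contra hlt
    have h0 : M.index ≠ 0 := M.index_ne_zero_of_finite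
    have : M.index = 1 := by omega
    exact hM1 (Subgroup.index_eq_one.1 this)
  obtain ⟨H', ψ', h1, h2, h3⟩ := ih M D ((Dvd.intro _ hM).trans hG) hDcen hDcyc h2M
  obtain ⟨H, ψ, h4, h5, h6⟩ := transfer M (MonoidHom.id M) Function.surjective_id C hC
    (fun c _ h => h) H' ψ' (fun c hc => h1 (hyz hc))
    (by
      rintro c ⟨d, hd, hdc⟩ hc
      refine h2 c ?_ hc
      have : d = c := hdc
      rw [← this]
      exact hyz hd)
  refine ⟨H, ψ, h4, h5, ?_⟩
  rw [h6]
  rw [hDcard] at h3
  calc (M.index * H'.index) ^ 2 * Nat.card C = M.index * (M.index * (H'.index ^ 2 * Nat.card C)) := by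
        ring
    _ ≤ M.index * (p * (H'.index ^ 2 * Nat.card C)) :=
        Nat.mul_le_mul_left _ (Nat.mul_le_mul_right _ hMi)
    _ = M.index * (H'.index ^ 2 * (p * Nat.card C)) := by ring
    _ ≤ M.index * (H'.index ^ 2 * Nat.card (Subgroup.zpowers y)) :=
        Nat.mul_le_mul_left _ (Nat.mul_le_mul_left _ hcardC)
    _ ≤ M.index * Nat.card M := Nat.mul_le_mul_left _ h3
    _ = Nat.card G := by rw [mul_comm, hM]

theorem main_ind (p N : ℕ) [hp : Fact p.Prime] : ∀ (m : ℕ) (G : Type) [Group G] [Finite G]
    (C : Subgroup G), Nat.card G ∣ p ^ N → C ≤ Subgroup.center G → IsCyclic C →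
    2 * Nat.card G - Nat.card C ≤ m → Good p N G C := by
  intro m
  induction m with
  | zero =>
    intro G _ _ C _ _ _ h
    exfalso
    have h1 : Nat.card C ≤ Nat.card G := C.card_le_card_group
    have h2 : 0 < Nat.card G := Nat.card_pos
    omega
  | succ m ih =>
    intro G _ _ C hG hC hcyc hm
    have hCG : Nat.card C ≤ Nat.card G := C.card_le_card_group
    have ihQ : ∀ (Q : Type) [Group Q] [Finite Q] (D : Subgroup Q), Nat.card Q ∣ p ^ N →
        D ≤ Subgroup.center Q → IsCyclic D → 2 * Nat.card Q ≤ Nat.card G → Good p N Q D := by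
      intro Q _ _ D h1 h2 h3 h4
      refine ih Q D h1 h2 h3 ?_
      have h5 : 0 < Nat.card D := Nat.card_pos
      omega
    have hCc : ∀ c ∈ C, ∀ g : G, c * g = g * c := fun c hc g =>
      (Subgroup.mem_center_iff.1 (hC hc) g).symm
    by_cases hB : ∃ z ∈ Subgroup.center G, z ∉ C ∧ z ^ p ∈ C
    · obtain ⟨z, hz, hzC, hzp⟩ := hB
      have hzc : ∀ g : G, z * g = g * z := fun g => (Subgroup.mem_center_iff.1 hz g).symm
      rcases gen_or_pow hcyc hG hzp with ⟨c, hc, hcp⟩ | hgen
      · refine step_quot (M := ⊤) (y := z * c⁻¹) hG le_top (fun c hc m _ => hCc c hc m) hcyc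
          (by rw [Subgroup.index_top]; exact hp.out.one_le) (Subgroup.mem_top _) ?_ ?_ ?_ ihQ
        · intro g _
          have h1 : z * c⁻¹ ∈ Subgroup.center G :=
            Subgroup.mul_mem _ hz (Subgroup.inv_mem _ (hC hc))
          exact (Subgroup.mem_center_iff.1 h1 g).symm
        · intro h
          apply hzC
          have := C.mul_mem h hc
          simpa using this
        · have h1 : Commute z c⁻¹ := hzc c⁻¹
          rw [h1.mul_pow, hcp, inv_pow, mul_inv_cancel]
      · -- enlarge C
        have hle : C ≤ Subgroup.zpowers z := hgen.trans (Subgroup.zpowers_le.2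
          (Subgroup.pow_mem _ (Subgroup.mem_zpowers z) p))
        have hlt : Nat.card C < Nat.card (Subgroup.zpowers z) := by
          by_contra hcon
          have h1 := Subgroup.eq_of_le_of_card_ge hle (not_lt.1 hcon)
          exact hzC (h1 ▸ Subgroup.mem_zpowers z)
        have hzG : Nat.card (Subgroup.zpowers z) ≤ Nat.card G := Subgroup.card_le_card_group _
        obtain ⟨H, ψ, h1, h2, h3⟩ := ih G (Subgroup.zpowers z) hG (Subgroup.zpowers_le.2 hz)
          inferInstance (by omega)
        exact ⟨H, ψ, hle.trans h1, fun c hc => h2 c (hle hc),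
          (Nat.mul_le_mul_left _ hlt.le).trans h3⟩
    · push Not at hB
      -- C is the centre
      have hcen : Subgroup.center G ≤ C := by
        intro z hz
        by_contra hzC
        have h1 : ∀ k : ℕ, z ^ p ^ k ∉ C := by
          intro k
          induction k with
          | zero => simpa using hzC
          | succ k ihk =>
            rw [pow_succ, pow_mul]
            exact hB _ (Subgroup.pow_mem _ hz _) ihk
        obtain ⟨k, hk⟩ := pgroup_of_card hG z
        exact h1 k (by rw [hk]; exact C.one_mem)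
      have hCeq : C = Subgroup.center G := le_antisymm hC hcen
      by_cases htop : C = ⊤
      · -- cyclic case
        have hcard : Nat.card (⊤ : Subgroup G) ∣ p ^ N := by
          rw [Subgroup.card_top]; exact hG
        subst htop
        obtain ⟨f, hf⟩ := cyc_emb (p := p) (N := N) (⊤ : Subgroup G) hcyc hcard
        refine ⟨⊤, f, le_rfl, fun c _ h => hf (by rw [h, map_one]), ?_⟩
        rw [Subgroup.index_top, Subgroup.card_top]
        simp
      · -- an element of the second centre
        have hpG : IsPGroup p G := pgroup_of_card hG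
        have hpQ : IsPGroup p (G ⧸ Subgroup.center G) := hpG.to_quotient _
        haveI : Nontrivial (G ⧸ Subgroup.center G) := by
          rw [QuotientGroup.nontrivial_iff]
          rw [← hCeq]; exact htop
        haveI := hpQ.center_nontrivial
        obtain ⟨⟨w, hw⟩, hw1⟩ := exists_ne (1 : Subgroup.center (G ⧸ Subgroup.center G))
        have hw1' : w ≠ 1 := fun h => hw1 (Subtype.ext h)
        obtain ⟨j, hj⟩ := hpQ w
        -- the last nontrivial p-power
        obtain ⟨u, hu, hu1, hup⟩ : ∃ u ∈ Subgroup.center (G ⧸ Subgroup.center G), u ≠ 1 ∧ u ^ p = 1 := by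
          classical
          have hex : ∃ j, w ^ p ^ j = 1 := ⟨j, hj⟩
          have h0 : Nat.find hex ≠ 0 := by
            intro h0
            have := Nat.find_spec hex
            rw [h0] at this
            exact hw1' (by simpa using this)
          refine ⟨w ^ p ^ (Nat.find hex - 1), Subgroup.pow_mem _ hw _,
            Nat.find_min hex (by omega), ?_⟩
          rw [← pow_mul, ← pow_succ, Nat.sub_add_cancel (by omega)]
          exact Nat.find_spec hex
        obtain ⟨x, rfl⟩ := QuotientGroup.mk_surjective u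
        have hxC : x ∉ C := by
          rw [hCeq]
          intro h
          exact hu1 ((QuotientGroup.eq_one_iff x).2 h)
        have hxp : x ^ p ∈ C := by
          rw [hCeq, ← QuotientGroup.eq_one_iff]
          rw [QuotientGroup.mk_pow]
          exact hup
        have hxcomm : ∀ g : G, x * g * x⁻¹ * g⁻¹ ∈ Subgroup.center G := by
          intro g
          rw [← QuotientGroup.eq_one_iff]
          have h1 := Subgroup.mem_center_iff.1 hu (g : G ⧸ Subgroup.center G)
          rw [QuotientGroup.mk_mul, QuotientGroup.mk_mul, QuotientGroup.mk_mul,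
            QuotientGroup.mk_inv, QuotientGroup.mk_inv, ← h1]
          group
        -- the commutator homomorphism
        let δ : G →* G :=
          { toFun := fun g => x * g * x⁻¹ * g⁻¹
            map_one' := by group
            map_mul' := by
              intro g h
              have h1 := Subgroup.mem_center_iff.1 (hxcomm h) g
              calc x * (g * h) * x⁻¹ * (g * h)⁻¹
                  = x * g * x⁻¹ * (x * h * x⁻¹ * h⁻¹) * g⁻¹ := by group
                _ = x * g * x⁻¹ * g⁻¹ * (g * (x * h * x⁻¹ * h⁻¹)) * g⁻¹ := by group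
                _ = x * g * x⁻¹ * g⁻¹ * ((x * h * x⁻¹ * h⁻¹) * g) * g⁻¹ := by rw [h1]
                _ = x * g * x⁻¹ * g⁻¹ * (x * h * x⁻¹ * h⁻¹) := by group }
        have hδ : ∀ g, δ g = x * g * x⁻¹ * g⁻¹ := fun g => rfl
        have hδp : ∀ g, δ g ^ p = 1 := by
          intro g
          have h1 : ∀ n : ℕ, x ^ n * g * (x ^ n)⁻¹ = (δ g) ^ n * g := by
            intro n
            induction n with
            | zero => simp
            | succ n ihn =>
              have h2 : Commute x ((δ g) ^ n) :=
                Subgroup.mem_center_iff.1 (Subgroup.pow_mem _ (hxcomm g) n) x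
              calc x ^ (n + 1) * g * (x ^ (n + 1))⁻¹ = x * (x ^ n * g * (x ^ n)⁻¹) * x⁻¹ := by
                    rw [pow_succ']; group
                _ = x * ((δ g) ^ n * g) * x⁻¹ := by rw [ihn]
                _ = (x * (δ g) ^ n) * g * x⁻¹ := by group
                _ = ((δ g) ^ n * x) * g * x⁻¹ := by rw [h2.eq]
                _ = (δ g) ^ n * (x * g * x⁻¹ * g⁻¹) * g := by group
                _ = (δ g) ^ (n + 1) * g := by rw [← hδ, pow_succ]
          have h2 := h1 p
          have h3 := hCc _ hxp g
          rw [h3] at h2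
          have h4 : g = (δ g) ^ p * g := by
            calc g = g * x ^ p * (x ^ p)⁻¹ := by group
              _ = (δ g) ^ p * g := h2
          exact (mul_eq_right.1 h4.symm)
        have hMker : Subgroup.centralizer {x} = δ.ker := by
          ext g
          rw [Subgroup.mem_centralizer_singleton_iff, MonoidHom.mem_ker, hδ]
          constructor
          · intro h
            rw [← h]; group
          · intro h
            calc g * x = g * x * 1 := by group
              _ = x * g := by
                rw [mul_one]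
                calc g * x = (x * g * x⁻¹ * g⁻¹) * (g * x) := by rw [h, one_mul]
                  _ = x * g := by group
        have hMi : (Subgroup.centralizer {x}).index ≤ p := by
          classical
          rw [hMker, Subgroup.index_ker]
          haveI : Fintype C := Fintype.ofFinite _
          haveI := hcyc
          have h1 := IsCyclic.card_pow_eq_one_le (α := C) (n := p) hp.out.pos
          refine le_trans ?_ h1
          rw [← Fintype.card_coe, ← Nat.card_eq_fintype_card]
          refine Nat.card_le_card_of_injective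
            (fun y : δ.range => (⟨⟨y.1, ?_⟩, ?_⟩ : {a : C // a ∈ Finset.univ.filter (fun a : C => a ^ p = 1)})) ?_
          · obtain ⟨_, g, rfl⟩ := y
            exact hcen (hxcomm g)
          · obtain ⟨_, g, rfl⟩ := y
            simp only [Finset.mem_filter, Finset.mem_univ, true_and]
            exact Subtype.ext (hδp g)
          · intro a b hab
            have h2 := congrArg (fun z => ((z.1 : C) : G)) hab
            exact Subtype.ext h2
        have hM1 : Subgroup.centralizer {x} ≠ ⊤ := by
          intro h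
          apply hxC
          rw [hCeq, Subgroup.mem_center_iff]
          intro g
          have : g ∈ Subgroup.centralizer {x} := by rw [h]; exact Subgroup.mem_top _
          exact Subgroup.mem_centralizer_singleton_iff.1 this
        rcases gen_or_pow hcyc hG hxp with ⟨c, hc, hcp⟩ | hgen
        · refine step_quot (M := Subgroup.centralizer {x}) (y := x * c⁻¹) hG ?_
            (fun c hc m _ => hCc c hc m) hcyc hMi ?_ ?_ ?_ ?_ ihQ
          · intro c hc
            rw [Subgroup.mem_centralizer_singleton_iff]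
            exact hCc c hc x
          · rw [Subgroup.mem_centralizer_singleton_iff]
            have h1 := hCc _ (C.inv_mem hc) x
            rw [mul_assoc, h1]
          · intro g hg
            rw [Subgroup.mem_centralizer_singleton_iff] at hg
            have h1 := hCc _ (C.inv_mem hc) g
            rw [mul_assoc, h1, ← mul_assoc, ← hg, mul_assoc]
          · intro h
            apply hxC
            have := C.mul_mem h hc
            simpa using this
          · have h1 : Commute x c⁻¹ := (hCc _ (C.inv_mem hc) x).symm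
            rw [h1.mul_pow, hcp, inv_pow, mul_inv_cancel]
        · refine step_cyc (M := Subgroup.centralizer {x}) (y := x) hG hM1 hMi ?_ ?_ hxC hgen ihQ
          · rw [Subgroup.mem_centralizer_singleton_iff]
          · intro g hg
            exact (Subgroup.mem_centralizer_singleton_iff.1 hg).symm

end Pool.Agent.H596R3.CovUp
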