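import Pool.Agent.H596R3.CovUp

set_option autoImplicit false
set_option linter.all false

/-!
# The wreath product embedding
-/

namespace Pool.Agent.H596R3.CovUp

variable {p : ℕ}

/-- permutations act on functions -/
def wrAct (X A : Type) [CommGroup A] : Equiv.Perm X →* MulAut (X → A) where
  toFun σ :=
    { toFun := fun f x => f (σ⁻¹ x)
      invFun := fun f x => f (σ x)
      left_inv := fun f => by funext x; simp
      right_inv := fun f => by funext x; simp
      map_mul' := fun f g => rfl }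
  map_one' := rfl
  map_mul' σ τ := by
    ext f x
    simp

/-- the wreath product of `A` with the symmetric group on `X` -/
abbrev Wr (X A : Type) [CommGroup A] : Type := (X → A) ⋊[wrAct X A] Equiv.Perm X

/-- transport along a bijection -/
def wrMap {X Y : Type} (A : Type) [CommGroup A] (e : X ≃ Y) : Wr X A →* Wr Y A where
  toFun x := ⟨fun y => x.left (e.symm y), e.permCongr x.right⟩
  map_one' := by
    apply SemidirectProduct.ext
    · rfl
    · ext y; simp
  map_mul' x y := by
    apply SemidirectProduct.ext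
    · funext z
      show x.left (e.symm z) * y.left (x.right⁻¹ (e.symm z)) =
        x.left (e.symm z) * y.left (e.symm ((e.permCongr x.right)⁻¹ z))
      have h1 : e.symm ((e.permCongr x.right)⁻¹ z) = x.right⁻¹ (e.symm z) := by
        rw [Equiv.symm_apply_eq]
        rfl
      rw [h1]
    · ext z; simp

theorem wrMap_injective {X Y : Type} (A : Type) [CommGroup A] (e : X ≃ Y) :
    Function.Injective (wrMap A e) := by
  intro x y h
  apply SemidirectProduct.ext
  · funext z
    have h1 := congrFun (congrArg SemidirectProduct.left h) (e z)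
    have h2 : x.left (e.symm (e z)) = y.left (e.symm (e z)) := h1
    simpa using h2
  · have h1 : e.permCongr x.right = e.permCongr y.right := congrArg SemidirectProduct.right h
    exact e.permCongr.injective h1

section

variable {G A : Type} [Group G] [CommGroup A] (H : Subgroup G) (ψ : H →* A)

theorem coc_mem (g : G) (ω : G ⧸ H) : (Quotient.out ω)⁻¹ * g * Quotient.out (g⁻¹ • ω) ∈ H := by
  have h1 : ((Quotient.out ω : G) : G ⧸ H) = ω := QuotientGroup.out_eq' ω
  have h2 : ((Quotient.out (g⁻¹ • ω) : G) : G ⧸ H) = g⁻¹ • ω := QuotientGroup.out_eq' _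
  rw [mul_assoc, ← QuotientGroup.eq, h1]
  have h3 : ((g * Quotient.out (g⁻¹ • ω) : G) : G ⧸ H) = g • ((Quotient.out (g⁻¹ • ω) : G) : G ⧸ H) :=
    rfl
  rw [h3, h2, smul_inv_smul]

/-- the monomial homomorphism -/
noncomputable def theta : G →* Wr (G ⧸ H) A :=
  MonoidHom.mk' (fun g => ⟨fun ω => ψ ⟨_, coc_mem H g ω⟩, MulAction.toPerm g⟩) (by
    intro g h
    apply SemidirectProduct.ext
    · funext ω
      show ψ ⟨_, coc_mem H (g * h) ω⟩ = ψ ⟨_, coc_mem H g ω⟩ * ψ ⟨_, coc_mem H h (g⁻¹ • ω)⟩
      rw [← map_mul]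
      congr 1
      apply Subtype.ext
      show (Quotient.out ω)⁻¹ * (g * h) * Quotient.out ((g * h)⁻¹ • ω) =
        (Quotient.out ω)⁻¹ * g * Quotient.out (g⁻¹ • ω) *
          ((Quotient.out (g⁻¹ • ω))⁻¹ * h * Quotient.out (h⁻¹ • g⁻¹ • ω))
      rw [mul_inv_rev, mul_smul]
      group
    · ext ω
      exact mul_smul g h ω)

theorem theta_central {z : G} (hz : z ∈ Subgroup.center G) (hzH : z ∈ H)
    (h : theta H ψ z = 1) : ψ ⟨z, hzH⟩ = 1 := by
  have h1 := congrFun (congrArg SemidirectProduct.left h) ((1 : G) : G ⧸ H)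
  have h2 : ψ ⟨_, coc_mem H z ((1 : G) : G ⧸ H)⟩ = 1 := h1
  rw [← h2]
  congr 1
  apply Subtype.ext
  show z = (Quotient.out ((1 : G) : G ⧸ H))⁻¹ * z * Quotient.out (z⁻¹ • ((1 : G) : G ⧸ H))
  have h3 : z⁻¹ • ((1 : G) : G ⧸ H) = ((1 : G) : G ⧸ H) := by
    have : z⁻¹ • ((1 : G) : G ⧸ H) = ((z⁻¹ * 1 : G) : G ⧸ H) := rfl
    rw [this, mul_one, QuotientGroup.eq]
    simpa using hzH
  rw [h3]
  have h4 := Subgroup.mem_center_iff.1 hz (Quotient.out ((1 : G) : G ⧸ H))⁻¹
  rw [h4]
  group

end

/-- a pair with index exactly `p ^ ((n - 1) / 2)` -/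
theorem exists_pair [hp : Fact p.Prime] {n : ℕ} {G : Type} [Group G] [Finite G]
    (hG : Nat.card G = p ^ n) {z : G} (hz : z ∈ Subgroup.center G) (hz1 : z ≠ 1)
    (hzp : z ^ p = 1) :
    ∃ (H : Subgroup G) (ψ : H →* Multiplicative (ZMod (p ^ n))) (hzH : z ∈ H), ψ ⟨z, hzH⟩ ≠ 1 ∧
      H.index = p ^ ((n - 1) / 2) := by
  have hord : orderOf z = p := orderOf_eq_prime hzp hz1
  obtain ⟨H, ψ, h1, h2, h3⟩ := main_ind p n _ G (Subgroup.zpowers z) (dvd_of_eq hG)
    (Subgroup.zpowers_le.2 hz) inferInstance le_rfl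
  rw [Nat.card_zpowers, hord, hG] at h3
  have hHi : H.index ∣ p ^ n := by rw [← hG]; exact H.index_dvd_card
  obtain ⟨k', hk', hidx⟩ := (Nat.dvd_prime_pow hp.out).1 hHi
  have hk : 2 * k' + 1 ≤ n := by
    rw [hidx, ← pow_mul, ← pow_succ] at h3
    have := (Nat.pow_le_pow_iff_right hp.out.one_lt).1 h3
    omega
  have hHcard : Nat.card H = p ^ (n - k') := by
    have h4 := H.card_mul_index
    rw [hidx, hG] at h4
    have h5 : p ^ n = p ^ (n - k') * p ^ k' := by rw [← pow_add, Nat.sub_add_cancel hk']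
    rw [h5] at h4
    exact Nat.eq_of_mul_eq_mul_right (pow_pos hp.out.pos _) h4
  have hzH : z ∈ H := h1 (Subgroup.mem_zpowers z)
  let z' : H := ⟨z, hzH⟩
  have hz' : Nat.card (Subgroup.zpowers z') = p ^ 1 := by
    rw [Nat.card_zpowers, pow_one, ← hord]
    exact (orderOf_injective H.subtype H.subtype_injective z').symm
  obtain ⟨K, hK, hzK⟩ := Sylow.exists_subgroup_card_pow_prime_le p
    (m := n - (n - 1) / 2) (by rw [hHcard]; exact pow_dvd_pow p (by omega)) _ hz' (by omega)
  refine ⟨K.map H.subtype, ψ.comp (Subgroup.inclusion (Subgroup.map_subtype_le K)),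
    ⟨z', hzK (Subgroup.mem_zpowers z'), rfl⟩, ?_, ?_⟩
  · intro h
    have h4 : z' = 1 := h2 z' (Subgroup.mem_zpowers z) h
    exact hz1 (congrArg Subtype.val h4)
  · have h5 : Nat.card (K.map H.subtype) = p ^ (n - (n - 1) / 2) := by
      rw [← hK]
      exact (Nat.card_congr (K.equivMapOfInjective H.subtype H.subtype_injective).toEquiv).symm
    have h4 := (K.map H.subtype).card_mul_index
    rw [h5, hG] at h4
    have h6 : p ^ n = p ^ (n - (n - 1) / 2) * p ^ ((n - 1) / 2) := by
      rw [← pow_add, Nat.sub_add_cancel (by omega)]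
    rw [h6] at h4
    exact Nat.eq_of_mul_eq_mul_left (pow_pos hp.out.pos _) h4

/-- a homomorphism to the wreath product not killing a given central element of order `p` -/
theorem exists_hom [hp : Fact p.Prime] {n : ℕ} {G : Type} [Group G] [Finite G]
    (hG : Nat.card G = p ^ n) {z : G} (hz : z ∈ Subgroup.center G) (hz1 : z ≠ 1)
    (hzp : z ^ p = 1) :
    ∃ θ : G →* Wr (Fin (p ^ ((n - 1) / 2))) (Multiplicative (ZMod (p ^ n))), θ z ≠ 1 := by
  obtain ⟨H, ψ, hzH, h1, h2⟩ := exists_pair hG hz hz1 hzp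
  have e : G ⧸ H ≃ Fin (p ^ ((n - 1) / 2)) := Finite.equivFinOfCardEq h2
  refine ⟨(wrMap _ e).comp (theta H ψ), ?_⟩
  intro h
  apply h1
  apply theta_central H ψ hz hzH
  apply wrMap_injective _ e
  rw [map_one]
  exact h

/-- a nontrivial normal subgroup of a finite `p`-group contains a central element of order `p` -/
theorem exists_central [hp : Fact p.Prime] {G : Type} [Group G] [Finite G] (hG : IsPGroup p G)
    {K : Subgroup G} (hK : K.Normal) (hne : K ≠ ⊥) :
    ∃ z ∈ K, z ∈ Subgroup.center G ∧ z ≠ 1 ∧ z ^ p = 1 := by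
  obtain ⟨w, hwK, hwc, hw1⟩ : ∃ w ∈ K, w ∈ Subgroup.center G ∧ w ≠ 1 := by
    have h1 : IsPGroup p (ConjAct G) := hG
    haveI : Finite (ConjAct G) := inferInstanceAs (Finite G)
    have hpK : p ∣ Nat.card K := by
      obtain ⟨m, hm⟩ := IsPGroup.iff_card.1 (hG.to_subgroup K)
      rw [hm]
      refine dvd_pow_self p ?_
      rintro rfl
      exact hne (Subgroup.card_eq_one.1 (by rw [hm, pow_zero]))
    obtain ⟨b, hb, hb1⟩ := h1.exists_fixed_point_of_prime_dvd_card_of_fixed_point K hpK
      (a := (1 : K)) (by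
        intro g
        apply Subtype.ext
        show ConjAct.ofConjAct g * 1 * (ConjAct.ofConjAct g)⁻¹ = 1
        simp)
    refine ⟨b, b.2, ?_, fun h => hb1 (Subtype.ext h).symm⟩
    rw [Subgroup.mem_center_iff]
    intro g
    have h2 : g * (b : G) * g⁻¹ = b := congrArg Subtype.val (hb (ConjAct.toConjAct g))
    calc g * (b : G) = (g * (b : G) * g⁻¹) * g := by group
      _ = b * g := by rw [h2]
  classical
  have hex : ∃ j, w ^ p ^ j = 1 := hG w
  have h0 : Nat.find hex ≠ 0 := by
    intro h0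
    have := Nat.find_spec hex
    rw [h0] at this
    exact hw1 (by simpa using this)
  refine ⟨w ^ p ^ (Nat.find hex - 1), K.pow_mem hwK _, Subgroup.pow_mem _ hwc _,
    Nat.find_min hex (by omega), ?_⟩
  rw [← pow_mul, ← pow_succ, Nat.sub_add_cancel (by omega)]
  exact Nat.find_spec hex

/-- the embedding -/
theorem exists_emb [hp : Fact p.Prime] {n : ℕ} {G : Type} [Group G] [Finite G]
    (hG : Nat.card G = p ^ n) :
    ∃ Θ : G →* (Fin n → Wr (Fin (p ^ ((n - 1) / 2))) (Multiplicative (ZMod (p ^ n)))),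
      Function.Injective Θ := by
  have hpG : IsPGroup p G := IsPGroup.of_card hG
  have key : ∀ j : ℕ, j ≤ n →
      ∃ Θ : G →* (Fin j → Wr (Fin (p ^ ((n - 1) / 2))) (Multiplicative (ZMod (p ^ n)))),
        Nat.card Θ.ker ∣ p ^ (n - j) := by
    intro j
    induction j with
    | zero =>
      intro _
      refine ⟨(1 : G →* (Fin 0 → Wr (Fin (p ^ ((n - 1) / 2))) (Multiplicative (ZMod (p ^ n))))),
        ?_⟩
      rw [Nat.sub_zero, ← hG]
      exact (MonoidHom.ker _).card_subgroup_dvd_card
    | succ j ih =>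
      intro hj
      obtain ⟨Θ, hΘ⟩ := ih (by omega)
      by_cases hb : Θ.ker = ⊥
      · let Θ' : G →* (Fin (j + 1) → Wr (Fin (p ^ ((n - 1) / 2))) (Multiplicative (ZMod (p ^ n)))) :=
          MonoidHom.mk' (fun g => Fin.cons 1 (Θ g)) (by
            intro a b
            funext i
            refine Fin.cases ?_ ?_ i
            · simp
            · intro i
              simp)
        refine ⟨Θ', ?_⟩
        have : Θ'.ker = ⊥ := by
          rw [eq_bot_iff, ← hb]
          intro g hg
          rw [MonoidHom.mem_ker] at hg ⊢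
          funext i
          have := congrFun hg i.succ
          simpa [Θ'] using this
        rw [this, Subgroup.card_bot]
        exact one_dvd _
      · obtain ⟨z, hzK, hzc, hz1, hzp⟩ := exists_central hpG (inferInstance : Θ.ker.Normal) hb
        obtain ⟨θ, hθ⟩ := exists_hom hG hzc hz1 hzp
        let Θ' : G →* (Fin (j + 1) → Wr (Fin (p ^ ((n - 1) / 2))) (Multiplicative (ZMod (p ^ n)))) :=
          MonoidHom.mk' (fun g => Fin.cons (θ g) (Θ g)) (by
            intro a b
            funext i
            refine Fin.cases ?_ ?_ i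
            · simp
            · intro i
              simp)
        refine ⟨Θ', ?_⟩
        have hle : Θ'.ker ≤ Θ.ker := by
          intro g hg
          rw [MonoidHom.mem_ker] at hg ⊢
          funext i
          have := congrFun hg i.succ
          simpa [Θ'] using this
        have hlt : Nat.card Θ'.ker < Nat.card Θ.ker := by
          by_contra hcon
          have h1 := Subgroup.eq_of_le_of_card_ge hle (not_lt.1 hcon)
          have h2 : z ∈ Θ'.ker := by rw [h1]; exact hzK
          rw [MonoidHom.mem_ker] at h2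
          apply hθ
          have := congrFun h2 0
          simpa [Θ'] using this
        obtain ⟨a, ha, hacard⟩ := (Nat.dvd_prime_pow hp.out).1 hΘ
        have h3 : Nat.card Θ'.ker ∣ p ^ a := by
          rw [← hacard]
          exact Subgroup.card_dvd_of_le hle
        obtain ⟨b, hb', hbcard⟩ := (Nat.dvd_prime_pow hp.out).1 h3
        rw [hbcard]
        apply pow_dvd_pow
        rw [hbcard, hacard] at hlt
        have := (Nat.pow_lt_pow_iff_right hp.out.one_lt).1 hlt
        omega
  obtain ⟨Θ, hΘ⟩ := key n le_rfl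
  refine ⟨Θ, ?_⟩
  rw [← MonoidHom.ker_eq_bot_iff]
  rw [Nat.sub_self, pow_zero] at hΘ
  exact Subgroup.card_eq_one.1 (Nat.dvd_one.1 hΘ)

end Pool.Agent.H596R3.CovUp
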