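import Pool.Agent.H596R3.Prod

set_option autoImplicit false
set_option linter.all false

namespace Pool.Agent.H596R3

section abs

variable {A : Type} [Group A] [Finite A]

/-- the fibre product -/
def fib (V : Subgroup A) [V.Normal] : Subgroup (A × A) :=
  MonoidHom.eqLocus ((QuotientGroup.mk' V).comp (MonoidHom.fst A A))
    ((QuotientGroup.mk' V).comp (MonoidHom.snd A A))

theorem mem_fib (V : Subgroup A) [V.Normal] (p : A × A) : p ∈ fib V ↔ p.1⁻¹ * p.2 ∈ V := by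
  have : p ∈ fib V ↔ ((p.1 : A) : A ⧸ V) = ((p.2 : A) : A ⧸ V) := Iff.rfl
  rw [this, QuotientGroup.eq]

theorem XS_top {C V : Subgroup A} (hF : Fr C V) (hCn : C.Normal) (hle : C ≤ T3 (⊤ : Subgroup A))
    (hcube : ∀ x : A, x ^ 3 ∈ C) : XS (⊤ : Subgroup A) := by
  refine ⟨{C}, ?_, ?_, ?_, ?_, ?_⟩
  · rintro _ rfl
    exact ⟨V, hF⟩
  · rintro _ rfl
    exact hle
  · rintro _ rfl t _ c hc
    exact hCn.conj_mem c hc t
  · rintro _ rfl _ rfl hne
    exact absurd rfl hne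
  · intro t _
    refine ⟨1, ?_⟩
    rw [sSup_singleton, pow_one]
    exact hcube t

theorem not_XS_fib {C V : Subgroup A} (hF : Fr C V) [hVn : V.Normal]
    (hle : C ≤ T3 (⊤ : Subgroup A)) (hcard : Nat.card A ≤ 391) : ¬ XS (fib V) := by
  rintro ⟨𝒞, hC⟩
  -- the diagonal of C
  have hdiag : ∀ c ∈ C, ((c, c) : A × A) ∈ T3 (fib V) := by
    let δ : A →* A × A := (MonoidHom.id A).prod (MonoidHom.id A)
    have h1 : (⊤ : Subgroup A).map δ ≤ fib V := by
      rintro _ ⟨x, -, rfl⟩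
      rw [mem_fib]
      show x⁻¹ * x ∈ V
      rw [inv_mul_cancel]
      exact V.one_mem
    have h2 := T3_mono h1
    rw [T3_map] at h2
    intro c hc
    exact h2 ⟨c, hle hc, rfl⟩
  have hleft : ∀ v ∈ V, ((v, 1) : A × A) ∈ fib V := by
    intro v hv
    rw [mem_fib]
    simpa using hv
  have hTn : ∀ g ∈ fib V, ∀ t ∈ T3 (fib V), g * t * g⁻¹ ∈ T3 (fib V) := fun g hg =>
    T3_conj (fun x hx => (fib V).mul_mem ((fib V).mul_mem hg hx) ((fib V).inv_mem hg))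
  have hV1 : ∀ v ∈ V, ((v, 1) : A × A) ∈ T3 (fib V) := by
    obtain ⟨c, hc, hcV⟩ := hF.exists_not
    obtain ⟨v₀, hv₀, hv₀1⟩ := hF.exists_ne
    let B : Subgroup A := V ⊓ (T3 (fib V)).comap (MonoidHom.inl A A)
    have hB : B = ⊥ ∨ B = V := by
      refine hF.irr inf_le_left hc hcV ?_
      intro a ha
      refine Subgroup.mem_inf.2 ⟨hF.nrm c hc a (Subgroup.mem_inf.1 ha).1, ?_⟩
      have h1 : ((a, 1) : A × A) ∈ T3 (fib V) := (Subgroup.mem_inf.1 ha).2
      have h2 := hTn _ (T3_le _ (hdiag c hc)) _ h1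
      have h3 : ((c, c) : A × A) * (a, 1) * (c, c)⁻¹ = (c * a * c⁻¹, 1) := by
        ext <;> simp
      rw [h3] at h2
      exact h2
    rcases hB with hB | hB
    · exfalso
      have h1 : c * v₀ * c⁻¹ * v₀⁻¹ ∈ B := by
        refine Subgroup.mem_inf.2 ⟨V.mul_mem (hF.nrm c hc v₀ hv₀) (V.inv_mem hv₀), ?_⟩
        have h2 := (T3 (fib V)).mul_mem (hdiag c hc)
          (hTn _ (hleft v₀ hv₀) _ ((T3 (fib V)).inv_mem (hdiag c hc)))
        have h3 : ((c, c) : A × A) * ((v₀, 1) * (c, c)⁻¹ * (v₀, 1)⁻¹) = (c * v₀ * c⁻¹ * v₀⁻¹, 1) := by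
          ext <;> simp [mul_assoc]
        rw [h3] at h2
        exact h2
      rw [hB, Subgroup.mem_bot] at h1
      apply hcV
      refine hF.cent v₀ hv₀ hv₀1 c hc ?_
      calc c * v₀ = (c * v₀ * c⁻¹ * v₀⁻¹) * v₀ * c := by group
        _ = v₀ * c := by rw [h1]; group
    · intro v hv
      rw [← hB] at hv
      exact (Subgroup.mem_inf.1 hv).2
  have hVV : ∀ v ∈ V, ∀ w ∈ V, ((v, w) : A × A) ∈ sSup 𝒞 := by
    intro v hv w hw
    apply hC.mem_of
    · have h1 := (T3 (fib V)).mul_mem (hV1 (v * w⁻¹) (V.mul_mem hv (V.inv_mem hw)))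
        (hdiag w (hF.le hw))
      have h2 : ((v * w⁻¹, 1) : A × A) * (w, w) = (v, w) := by
        ext <;> simp
      rwa [h2] at h1
    · have h1 := hF.pow56 (hF.le hv)
      have h2 := hF.pow56 (hF.le hw)
      ext
      · simpa using h1
      · simpa using h2
  have hbig : ∀ D : Subgroup (A × A), (∀ v ∈ V, ∀ w ∈ V, ((v, w) : A × A) ∈ D) →
      64 ≤ Nat.card D := by
    intro D hD
    have h1 : Nat.card (V × V) = 64 := by rw [Nat.card_prod, hF.cV]
    rw [← h1]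
    exact Nat.card_le_card_of_injective (fun p : V × V => (⟨(p.1, p.2), hD _ p.1.2 _ p.2.2⟩ : D))
      (fun p q hpq => by
        have h2 := congrArg Subtype.val hpq
        exact Prod.ext (Subtype.ext (congrArg Prod.fst h2)) (Subtype.ext (congrArg Prod.snd h2)))
  by_cases h2 : ∃ C' ∈ 𝒞, ∃ C'' ∈ 𝒞, C' ≠ C''
  · obtain ⟨C', hC', C'', hC'', hne⟩ := h2
    obtain ⟨V', hV'⟩ := hC.fr C' hC'
    obtain ⟨V'', hV''⟩ := hC.fr C'' hC''
    have hcom := hC.comm C' hC' C'' hC'' hne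
    have hinf := hV'.inf_bot hcom
    have h3 : ∀ x ∈ C', ∀ y ∈ C'', x * y ∈ fib V := fun x hx y hy =>
      (fib V).mul_mem (T3_le _ (hC.le C' hC' hx)) (T3_le _ (hC.le C'' hC'' hy))
    have h4 : Nat.card (C' × C'') ≤ Nat.card (A × V) := by
      refine Nat.card_le_card_of_injective (fun p : C' × C'' =>
        (((p.1.1 * p.2.1).1, ⟨(p.1.1 * p.2.1).1⁻¹ * (p.1.1 * p.2.1).2,
          (mem_fib V _).1 (h3 _ p.1.2 _ p.2.2)⟩) : A × V)) ?_
      intro p q hpq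
      have e1 : (p.1.1 * p.2.1).1 = (q.1.1 * q.2.1).1 := congrArg (fun z : A × V => z.1) hpq
      have e2 : (p.1.1 * p.2.1).1⁻¹ * (p.1.1 * p.2.1).2 =
          (q.1.1 * q.2.1).1⁻¹ * (q.1.1 * q.2.1).2 := congrArg (fun z : A × V => (z.2 : A)) hpq
      rw [e1] at e2
      have e3 : (p.1.1 * p.2.1).2 = (q.1.1 * q.2.1).2 := mul_left_cancel e2
      have e4 : p.1.1 * p.2.1 = q.1.1 * q.2.1 := Prod.ext e1 e3
      have e5 : q.1.1⁻¹ * p.1.1 = q.2.1 * p.2.1⁻¹ := by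
        calc q.1.1⁻¹ * p.1.1 = q.1.1⁻¹ * (p.1.1 * p.2.1) * p.2.1⁻¹ := by group
          _ = q.2.1 * p.2.1⁻¹ := by rw [e4]; group
      have e6 : q.1.1⁻¹ * p.1.1 ∈ C' ⊓ C'' := by
        refine Subgroup.mem_inf.2 ⟨C'.mul_mem (C'.inv_mem q.1.2) p.1.2, ?_⟩
        rw [e5]
        exact C''.mul_mem q.2.2 (C''.inv_mem p.2.2)
      rw [hinf, Subgroup.mem_bot] at e6
      have e7 : p.1.1 = q.1.1 := by
        calc p.1.1 = q.1.1 * (q.1.1⁻¹ * p.1.1) := by group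
          _ = q.1.1 := by rw [e6]; group
      have e8 : p.2.1 = q.2.1 := by
        rw [e7] at e4
        exact mul_left_cancel e4
      exact Prod.ext (Subtype.ext e7) (Subtype.ext e8)
    rw [Nat.card_prod, Nat.card_prod, hV'.cC, hV''.cC, hF.cV] at h4
    omega
  · push Not at h2
    by_cases h3 : ∃ C', C' ∈ 𝒞
    · obtain ⟨C', hC'⟩ := h3
      have h4 : sSup 𝒞 ≤ C' := sSup_le (fun D hD => (h2 D hD C' hC').le)
      have h5 := hbig C' (fun v hv w hw => h4 (hVV v hv w hw))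
      obtain ⟨V', hV'⟩ := hC.fr C' hC'
      rw [hV'.cC] at h5
      omega
    · push Not at h3
      have h4 : 𝒞 = ∅ := Set.eq_empty_of_forall_notMem h3
      have h5 := hbig (sSup 𝒞) hVV
      rw [h4, sSup_empty] at h5
      simp at h5

/-- the conclusion -/
theorem main_abs {C V : Subgroup A} (hsol : Group.IsSolvable A) (hF : Fr C V) (hVn : V.Normal)
    (hCn : C.Normal)
    (hle : C ≤ T3 (⊤ : Subgroup A)) (hcube : ∀ x : A, x ^ 3 ∈ C) (hcard : Nat.card A ≤ 391) :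
    ∃ (G : Type) (_ : Group G) (_ : Finite G), Group.IsSolvable G ∧
      ∃ (f₁ f₂ : G →* A), Function.Surjective f₁ ∧ Function.Surjective f₂ ∧
        f₁.ker ⊓ f₂.ker = ⊥ ∧ X A ∧ ¬ X G := by
  refine ⟨fib V, inferInstance, inferInstance, inferInstance,
    (MonoidHom.fst A A).comp (fib V).subtype, (MonoidHom.snd A A).comp (fib V).subtype,
    ?_, ?_, ?_, ⟨inferInstance, hsol, XS_top hF hCn hle hcube⟩, ?_⟩
  · intro x
    refine ⟨⟨(x, x), ?_⟩, rfl⟩
    rw [mem_fib]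
    simp
  · intro x
    refine ⟨⟨(x, x), ?_⟩, rfl⟩
    rw [mem_fib]
    simp
  · rw [eq_bot_iff]
    rintro ⟨⟨x, y⟩, hx⟩ h
    have h1 : x = 1 := MonoidHom.mem_ker.1 (Subgroup.mem_inf.1 h).1
    have h2 : y = 1 := MonoidHom.mem_ker.1 (Subgroup.mem_inf.1 h).2
    subst h1
    subst h2
    rw [Subgroup.mem_bot]
    rfl
  · intro hX
    exact not_XS_fib hF hle hcard ((XS_subtype _).1 hX.2.2)

end abs

end Pool.Agent.H596R3
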