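import Pool.Agent.H596R3.Ex

set_option autoImplicit false
set_option linter.all false

namespace Pool.Agent.H596R3.Conc

/-- the elementary abelian group of order 8 -/
abbrev V₀ : Type := Multiplicative (ZMod 2 × ZMod 2 × ZMod 2)

/-- an automorphism of order 7 -/
def a : MulAut V₀ where
  toFun v := Multiplicative.ofAdd (v.toAdd.2.2, v.toAdd.1 + v.toAdd.2.2, v.toAdd.2.1)
  invFun v := Multiplicative.ofAdd (v.toAdd.2.1 + v.toAdd.1, v.toAdd.2.2, v.toAdd.1)
  left_inv := by decide
  right_inv := by decide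
  map_mul' := by decide

/-- an automorphism of order 3 -/
def b : MulAut V₀ where
  toFun v := Multiplicative.ofAdd (v.toAdd.1, v.toAdd.2.2, v.toAdd.2.1 + v.toAdd.2.2)
  invFun v := Multiplicative.ofAdd (v.toAdd.1, v.toAdd.2.2 + v.toAdd.2.1, v.toAdd.2.1)
  left_inv := by decide
  right_inv := by decide
  map_mul' := by decide

theorem a7 : a ^ 7 = 1 := by
  ext1 v
  revert v
  decide

theorem b3 : b ^ 3 = 1 := by
  ext1 v
  revert v
  decide

theorem ba : b * a = a ^ 2 * b := by
  ext1 v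
  revert v
  decide

theorem a_fix (v : V₀) (h : a v = v) : v = 1 := by
  revert v
  decide

/-- homomorphism from a cyclic group -/
def zhom {M : Type} [Group M] (n : ℕ) [NeZero n] (g : M) (hg : g ^ n = 1) :
    Multiplicative (ZMod n) →* M where
  toFun i := g ^ (i.toAdd.val)
  map_one' := by simp
  map_mul' i j := by
    rw [toAdd_mul, ZMod.val_add, ← pow_add]
    have h1 : ∀ m : ℕ, g ^ (m % n) = g ^ m := by
      intro m
      conv_rhs => rw [← Nat.div_add_mod m n, pow_add, pow_mul, hg, one_pow, one_mul]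
    exact h1 _

abbrev Z7 : Type := Multiplicative (ZMod 7)
abbrev Z3 : Type := Multiplicative (ZMod 3)

/-- doubling -/
def dbl : MulAut Z7 where
  toFun i := i ^ 2
  invFun i := i ^ 4
  left_inv := by decide
  right_inv := by decide
  map_mul' := by decide

theorem dbl3 : dbl ^ 3 = 1 := by
  ext1 v
  revert v
  decide

abbrev K₀ : Type := Z7 ⋊[zhom 3 dbl dbl3] Z3

theorem a_pow_mod (m : ℕ) : a ^ (m % 7) = a ^ m := by
  conv_rhs => rw [← Nat.div_add_mod m 7, pow_add, pow_mul, a7, one_pow, one_mul]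

theorem bpow (j : ℕ) : ∀ i : ℕ, b ^ j * a ^ i = a ^ (2 ^ j * i) * b ^ j := by
  have h1 : ∀ i : ℕ, b * a ^ i = a ^ (2 * i) * b := by
    intro i
    induction i with
    | zero => simp
    | succ i ih =>
      rw [pow_succ, ← mul_assoc, ih, mul_assoc, ba, ← mul_assoc, ← pow_add]
      ring_nf
  induction j with
  | zero => intro i; simp
  | succ j ih =>
    intro i
    rw [pow_succ', mul_assoc, ih, ← mul_assoc, h1, mul_assoc]
    congr 2
    ring

theorem dbl_pow (j : ℕ) (i : Z7) : (dbl ^ j) i = i ^ (2 ^ j) := by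
  induction j with
  | zero => simp
  | succ j ih =>
    rw [pow_succ', MulAut.mul_apply, ih]
    show (i ^ 2 ^ j) ^ 2 = i ^ 2 ^ (j + 1)
    rw [← pow_mul, pow_succ]

theorem zhom_a_pow (i : Z7) (m : ℕ) : zhom 7 a a7 (i ^ m) = (a ^ i.toAdd.val) ^ m := by
  rw [map_pow]
  rfl

def Φ : K₀ →* MulAut V₀ :=
  SemidirectProduct.lift (zhom 7 a a7) (zhom 3 b b3) (by
    intro g
    refine MonoidHom.ext (fun i => ?_)
    show zhom 7 a a7 ((dbl ^ g.toAdd.val) i) =
      (b ^ g.toAdd.val) * (a ^ i.toAdd.val) * (b ^ g.toAdd.val)⁻¹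
    rw [dbl_pow, zhom_a_pow, bpow, ← pow_mul, mul_comm (i.toAdd.val)]
    group)

abbrev A₀ : Type := V₀ ⋊[Φ] K₀

instance finK : Finite K₀ := Finite.of_equiv _ SemidirectProduct.equivProd.symm

instance finA : Finite A₀ := Finite.of_equiv _ SemidirectProduct.equivProd.symm

theorem cardK : Nat.card K₀ = 21 := by
  rw [Nat.card_congr SemidirectProduct.equivProd, Nat.card_prod]
  simp

theorem cardV : Nat.card V₀ = 8 := by
  simp

theorem cardA : Nat.card A₀ = 168 := by
  rw [Nat.card_congr SemidirectProduct.equivProd, Nat.card_prod, cardK, cardV]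

theorem solK : Group.IsSolvable K₀ := by
  refine Group.isSolvable_of_ker_le_range (SemidirectProduct.inl : Z7 →* K₀)
    (SemidirectProduct.rightHom : K₀ →* Z3) ?_
  rw [SemidirectProduct.range_inl_eq_ker_rightHom]

theorem solA : Group.IsSolvable A₀ := by
  haveI := solK
  refine Group.isSolvable_of_ker_le_range (SemidirectProduct.inl : V₀ →* A₀)
    (SemidirectProduct.rightHom : A₀ →* K₀) ?_
  rw [SemidirectProduct.range_inl_eq_ker_rightHom]

/-- the Frobenius kernel -/
def V : Subgroup A₀ := (SemidirectProduct.rightHom : A₀ →* K₀).ker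

/-- the projection onto the cyclic group of order three -/
def ρ : A₀ →* Z3 := (SemidirectProduct.rightHom : K₀ →* Z3).comp SemidirectProduct.rightHom

/-- the Frobenius group of order 56 -/
def C : Subgroup A₀ := ρ.ker

theorem mem_V (x : A₀) : x ∈ V ↔ x.right = 1 := Iff.rfl

theorem mem_C (x : A₀) : x ∈ C ↔ x.right.right = 1 := Iff.rfl

theorem ρ_surj : Function.Surjective ρ :=
  SemidirectProduct.rightHom_surjective.comp SemidirectProduct.rightHom_surjective

theorem cardC : Nat.card C = 56 := by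
  have h1 : Nat.card C * C.index = Nat.card A₀ := C.card_mul_index
  have h2 : C.index = 3 := by
    show ρ.ker.index = 3
    rw [Subgroup.index_ker, MonoidHom.range_eq_top.2 ρ_surj]
    rw [Nat.card_congr Subgroup.topEquiv.toEquiv]
    simp
  rw [h2, cardA] at h1
  omega

theorem cardV' : Nat.card V = 8 := by
  have h : V = (SemidirectProduct.inl : V₀ →* A₀).range :=
    SemidirectProduct.range_inl_eq_ker_rightHom.symm
  rw [h, ← Nat.card_congr (MonoidHom.ofInjective SemidirectProduct.inl_injective).toEquiv, cardV]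

theorem a_pow_fix : ∀ i : ZMod 7, i ≠ 0 → ∀ u : V₀, (a ^ i.val) u = u → u = 1 := by
  decide

theorem frob : Fr C V := by
  have hcent : ∀ v ∈ V, v ≠ 1 → ∀ c ∈ C, c * v = v * c → c ∈ V := by
    rintro ⟨u, k⟩ hv hv1 ⟨w, ⟨i, j⟩⟩ hc hcv
    have hk : k = 1 := hv
    subst hk
    have hj : j = 1 := hc
    subst hj
    have hu : u ≠ 1 := by
      rintro rfl
      exact hv1 rfl
    have h1 := congrArg SemidirectProduct.left hcv
    rw [SemidirectProduct.mul_left, SemidirectProduct.mul_left] at h1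
    simp only [map_one, MulAut.one_apply] at h1
    rw [mul_comm u w] at h1
    have h2 : Φ ⟨i, 1⟩ u = u := mul_left_cancel h1
    have h3 : Φ ⟨i, 1⟩ = a ^ i.toAdd.val := by
      have : (⟨i, 1⟩ : K₀) = SemidirectProduct.inl i := rfl
      rw [this]
      exact SemidirectProduct.lift_inl _ _ _ i
    rw [h3] at h2
    rw [mem_V]
    by_contra hne
    apply hu
    refine a_pow_fix i.toAdd (fun h0 => hne ?_) u h2
    have : i = 1 := h0
    subst this
    rfl
  have hVC : V ≤ C := by
    intro x hx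
    rw [mem_V] at hx
    rw [mem_C, hx]
    rfl
  refine ⟨hVC, cardC, cardV', ?_, ?_, hcent, ?_⟩
  · intro c _ v hv
    exact (inferInstance : ((SemidirectProduct.rightHom : A₀ →* K₀).ker).Normal).conj_mem v hv c
  · rintro ⟨u, k⟩ hv ⟨w, l⟩ hw
    have hk : k = 1 := hv
    have hl : l = 1 := hw
    subst hk
    subst hl
    apply SemidirectProduct.ext
    · rw [SemidirectProduct.mul_left, SemidirectProduct.mul_left]
      simp only [map_one, MulAut.one_apply]
      exact mul_comm u w
    · rfl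
  · intro c hc hcV
    by_contra h7
    have h1 : c ^ 7 ∈ V := by
      show (SemidirectProduct.rightHom : A₀ →* K₀) (c ^ 7) = 1
      rw [map_pow]
      have h2 : (SemidirectProduct.rightHom : A₀ →* K₀) c =
          SemidirectProduct.inl c.right.left := by
        apply SemidirectProduct.ext
        · rfl
        · exact hc
      rw [h2, ← map_pow]
      have h3 : ∀ i : Z7, i ^ 7 = 1 := by decide
      rw [h3, map_one]
    exact hcV (hcent _ h1 h7 c hc (by rw [← pow_succ, ← pow_succ']))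

theorem Vn : V.Normal := (inferInstance : ((SemidirectProduct.rightHom : A₀ →* K₀).ker).Normal)

theorem Cn : C.Normal := (inferInstance : (ρ.ker).Normal)

theorem cube (x : A₀) : x ^ 3 ∈ C := by
  show ρ (x ^ 3) = 1
  rw [map_pow]
  have h3 : ∀ i : Z3, i ^ 3 = 1 := by decide
  exact h3 _

theorem C_le : C ≤ T3 (⊤ : Subgroup A₀) := by
  have hTn := T3_normal (inferInstance : (⊤ : Subgroup A₀).Normal)
  let β : A₀ := SemidirectProduct.inr (SemidirectProduct.inr (Multiplicative.ofAdd 1))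
  let c : A₀ := SemidirectProduct.inr (SemidirectProduct.inl (Multiplicative.ofAdd 1))
  have hβ : β ^ 3 ^ 1 = 1 := by
    show β ^ 3 ^ 1 = 1
    have h1 : (Multiplicative.ofAdd (1 : ZMod 3)) ^ 3 = 1 := by decide
    rw [pow_one, ← map_pow, ← map_pow, h1, map_one, map_one]
  have hc : c ∈ C := by
    rw [mem_C]
    rfl
  have h2 : β * c * β⁻¹ * c⁻¹ ∈ T3 (⊤ : Subgroup A₀) := by
    have hβT : β ∈ T3 (⊤ : Subgroup A₀) := mem_T3 (Subgroup.mem_top _) hβ
    have := Subgroup.mul_mem _ hβT (hTn.conj_mem β⁻¹ (Subgroup.inv_mem _ hβT) c)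
    rwa [show β * c * β⁻¹ * c⁻¹ = β * (c * β⁻¹ * c⁻¹) by group]
  have h3 : β * c * β⁻¹ * c⁻¹ ∈ C := C.mul_mem (Cn.conj_mem c hc β) (C.inv_mem hc)
  have h4 : β * c * β⁻¹ * c⁻¹ ∉ V := by
    intro h
    have h5 : (SemidirectProduct.rightHom : A₀ →* K₀) (β * c) =
        (SemidirectProduct.rightHom : A₀ →* K₀) (c * β) := by
      have e : β * c = (β * c * β⁻¹ * c⁻¹) * (c * β) := by group
      have h0 : (SemidirectProduct.rightHom : A₀ →* K₀) (β * c * β⁻¹ * c⁻¹) = 1 := h
      rw [e, map_mul, h0, one_mul]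
    have h6 : ((SemidirectProduct.inr (Multiplicative.ofAdd 1) : K₀) *
        SemidirectProduct.inl (Multiplicative.ofAdd 1)).left =
        (SemidirectProduct.inl (Multiplicative.ofAdd 1) *
        (SemidirectProduct.inr (Multiplicative.ofAdd 1) : K₀)).left :=
      congrArg SemidirectProduct.left h5
    revert h6
    decide
  have h5 : C ⊓ T3 (⊤ : Subgroup A₀) ≠ ⊥ := by
    intro h
    have h6 : β * c * β⁻¹ * c⁻¹ ∈ C ⊓ T3 (⊤ : Subgroup A₀) := Subgroup.mem_inf.2 ⟨h3, h2⟩
    rw [h, Subgroup.mem_bot] at h6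
    apply h4
    rw [h6]
    exact V.one_mem
  obtain ⟨-, h6⟩ := frob.nor (N := C ⊓ T3 (⊤ : Subgroup A₀)) inf_le_left (fun c hc n hn =>
    Subgroup.mem_inf.2 ⟨C.mul_mem (C.mul_mem hc (Subgroup.mem_inf.1 hn).1) (C.inv_mem hc),
      hTn.conj_mem n (Subgroup.mem_inf.1 hn).2 c⟩) h5
  rcases h6 with h6 | h6
  · exfalso
    apply h4
    rw [← h6]
    exact Subgroup.mem_inf.2 ⟨h3, h2⟩
  · rw [← h6]
    exact inf_le_right

theorem main_conc : ∃ (G A : Type) (_ : Group G) (_ : Group A) (_ : Finite G), Group.IsSolvable G ∧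
      ∃ (f₁ f₂ : G →* A), Function.Surjective f₁ ∧ Function.Surjective f₂ ∧
        f₁.ker ⊓ f₂.ker = ⊥ ∧ X A ∧ ¬ X G := by
  obtain ⟨G, i1, i2, h⟩ := main_abs solA frob Vn Cn C_le cube (by rw [cardA]; norm_num)
  exact ⟨G, A₀, i1, inferInstance, i2, h⟩

end Pool.Agent.H596R3.Conc
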