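import Pool.Agent.H596R3.Fr

set_option autoImplicit false
set_option linter.all false

namespace Pool.Agent.H596R3

variable {G : Type} [Group G]

/-- the members commute pairwise -/
def PC (𝒞 : Set (Subgroup G)) : Prop :=
  ∀ C ∈ 𝒞, ∀ D ∈ 𝒞, C ≠ D → ∀ c ∈ C, ∀ d ∈ D, c * d = d * c

theorem dec [Finite G] {𝒞 : Set (Subgroup G)} (hc : PC 𝒞) {s : G} (hs : s ∈ sSup 𝒞) :
    ∃ f : Subgroup G → G, (∀ C ∈ 𝒞, f C ∈ C) ∧
      (∀ C ∈ 𝒞, ∀ d ∈ C, s * d * s⁻¹ = f C * d * (f C)⁻¹) ∧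
      s ∈ sSup {C | C ∈ 𝒞 ∧ f C ≠ 1} ∧ ((∀ C ∈ 𝒞, ∀ c ∈ C, c ^ 56 = 1) → s ^ 56 = 1) := by
  classical
  haveI : Fintype 𝒞 := Fintype.ofFinite _
  have hcomm : Pairwise fun i j : 𝒞 => ∀ x y : G, x ∈ i.1 → y ∈ j.1 → Commute x y := by
    intro i j hij x y hx hy
    exact hc i.1 i.2 j.1 j.2 (fun h => hij (Subtype.ext h)) x hx y hy
  have hr : s ∈ (Subgroup.noncommPiCoprod (H := fun i : 𝒞 => i.1) hcomm).range := by
    rw [Subgroup.noncommPiCoprod_range, ← sSup_eq_iSup']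
    exact hs
  obtain ⟨g, rfl⟩ := hr
  refine ⟨fun C => if h : C ∈ 𝒞 then ((g ⟨C, h⟩ : C) : G) else 1, ?_, ?_, ?_, ?_⟩
  · intro C hC
    simp only [dif_pos hC]
    exact (g ⟨C, hC⟩).2
  · intro C hC d hd
    simp only [dif_pos hC]
    have h1 : (d : G) = Subgroup.noncommPiCoprod (H := fun i : 𝒞 => i.1) hcomm
        (Pi.mulSingle ⟨C, hC⟩ (⟨d, hd⟩ : C)) := by
      rw [Subgroup.noncommPiCoprod_mulSingle]
    have h2 : g * Pi.mulSingle (⟨C, hC⟩ : 𝒞) (⟨d, hd⟩ : C) * g⁻¹ =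
        Pi.mulSingle (⟨C, hC⟩ : 𝒞) (g ⟨C, hC⟩ * ⟨d, hd⟩ * (g ⟨C, hC⟩)⁻¹) := by
      funext i
      by_cases hi : i = ⟨C, hC⟩
      · subst hi
        simp
      · simp [Pi.mulSingle_eq_of_ne hi]
    have h3 := congrArg (Subgroup.noncommPiCoprod (H := fun i : 𝒞 => i.1) hcomm) h2
    rw [map_mul, map_mul, map_inv, ← h1, Subgroup.noncommPiCoprod_mulSingle] at h3
    rw [h3]
    rfl
  · rw [Subgroup.noncommPiCoprod_apply]
    apply Subgroup.noncommProd_mem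
    intro i _
    by_cases hi : g i = 1
    · rw [hi]
      exact Subgroup.one_mem _
    · refine (le_sSup ?_ : i.1 ≤ _) (g i).2
      refine ⟨i.2, ?_⟩
      simp only [dif_pos i.2]
      intro hcon
      exact hi (Subtype.ext hcon)
  · intro h
    rw [← map_pow]
    have : g ^ 56 = 1 := by
      funext i
      apply Subtype.ext
      have := h i.1 i.2 (g i).1 (g i).2
      simpa using this
    rw [this, map_one]

/-- a family of components -/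
structure Fam (T : Subgroup G) (𝒞 : Set (Subgroup G)) : Prop where
  fr : ∀ C ∈ 𝒞, ∃ V, Fr C V
  le : ∀ C ∈ 𝒞, C ≤ T
  nrm : ∀ C ∈ 𝒞, ∀ t ∈ T, ∀ c ∈ C, t * c * t⁻¹ ∈ C
  comm : PC 𝒞
  pg : ∀ t ∈ T, ∃ k : ℕ, t ^ 3 ^ k ∈ sSup 𝒞

namespace Fr

theorem map_of {H : Type} [Group H] {C V : Subgroup G} (h : Fr C V) (f : G →* H)
    (hf : ∀ c ∈ C, f c = 1 → c = 1) : Fr (C.map f) (V.map f) := by
  have inj : ∀ a ∈ C, ∀ b ∈ C, f a = f b → a = b := by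
    intro a ha b hb hab
    have := hf (a * b⁻¹) (C.mul_mem ha (C.inv_mem hb)) (by rw [map_mul, map_inv, hab]; simp)
    rw [mul_inv_eq_one] at this
    exact this
  have hcard : ∀ D : Subgroup G, D ≤ C → Nat.card (D.map f) = Nat.card D := by
    intro D hD
    refine (Nat.card_congr (Equiv.ofBijective (fun d : D => (⟨f d, d, d.2, rfl⟩ : D.map f)) ?_)).symm
    constructor
    · intro a b hab
      exact Subtype.ext (inj a (hD a.2) b (hD b.2) (congrArg Subtype.val hab))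
    · rintro ⟨_, d, hd, rfl⟩
      exact ⟨⟨d, hd⟩, rfl⟩
  refine ⟨Subgroup.map_mono h.le, by rw [hcard C le_rfl, h.cC], by rw [hcard V h.le, h.cV],
    ?_, ?_, ?_, ?_⟩
  · rintro _ ⟨c, hc, rfl⟩ _ ⟨v, hv, rfl⟩
    exact ⟨c * v * c⁻¹, h.nrm c hc v hv, by simp⟩
  · rintro _ ⟨c, hc, rfl⟩ _ ⟨v, hv, rfl⟩
    rw [← map_mul, h.comm c hc v hv, map_mul]
  · rintro _ ⟨v, hv, rfl⟩ hne _ ⟨c, hc, rfl⟩ hcom
    refine ⟨c, h.cent v hv (fun h0 => hne (by rw [h0, map_one])) c hc ?_, rfl⟩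
    apply inj _ (C.mul_mem hc (h.le hv)) _ (C.mul_mem (h.le hv) hc)
    rw [map_mul, map_mul, hcom]
  · rintro _ ⟨c, hc, rfl⟩ hne
    rw [← map_pow, h.pow c hc (fun h0 => hne ⟨c, h0, rfl⟩), map_one]

theorem of_map {H : Type} [Group H] {C V : Subgroup G} (f : G →* H)
    (hf : Function.Injective f) (h : Fr (C.map f) (V.map f)) : Fr C V := by
  have hcard : ∀ D : Subgroup G, Nat.card (D.map f) = Nat.card D := by
    intro D
    exact (Nat.card_congr (D.equivMapOfInjective f hf).toEquiv).symm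
  refine ⟨(Subgroup.map_le_map_iff_of_injective hf).1 h.le, by rw [← hcard, h.cC],
    by rw [← hcard, h.cV], ?_, ?_, ?_, ?_⟩
  · intro c hc v hv
    have := h.nrm (f c) ⟨c, hc, rfl⟩ (f v) ⟨v, hv, rfl⟩
    rw [← map_mul, ← map_inv, ← map_mul] at this
    exact (Subgroup.mem_map_iff_mem hf).1 this
  · intro c hc v hv
    apply hf
    rw [map_mul, map_mul]
    exact h.comm (f c) ⟨c, hc, rfl⟩ (f v) ⟨v, hv, rfl⟩
  · intro v hv hne c hc hcom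
    have := h.cent (f v) ⟨v, hv, rfl⟩ (fun h0 => hne (hf (by rw [h0, map_one]))) (f c) ⟨c, hc, rfl⟩
      (by rw [← map_mul, hcom, map_mul])
    exact (Subgroup.mem_map_iff_mem hf).1 this
  · intro c hc hne
    apply hf
    rw [map_pow, map_one]
    exact h.pow (f c) ⟨c, hc, rfl⟩ (fun h0 => hne ((Subgroup.mem_map_iff_mem hf).1 h0))

theorem eq_of_le {C V D W : Subgroup G} (h : Fr C V) (h' : Fr D W) (hle : C ≤ D) : C = D := by
  haveI := h'.finC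
  exact Subgroup.eq_of_le_of_card_ge hle (by rw [h.cC, h'.cC])

theorem ne_bot {C V : Subgroup G} (h : Fr C V) : C ≠ ⊥ := by
  intro h0
  have := h.cC
  rw [h0] at this
  simp at this

theorem V_ne_bot {C V : Subgroup G} (h : Fr C V) : V ≠ ⊥ := by
  intro h0
  have := h.cV
  rw [h0] at this
  simp at this

end Fr

/-- two commuting groups of this kind meet trivially -/
theorem Fr.inf_bot {C V D : Subgroup G} (h : Fr C V) (hc : ∀ c ∈ C, ∀ d ∈ D, c * d = d * c) :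
    C ⊓ D = ⊥ := by
  rw [eq_bot_iff]
  intro x hx
  rw [Subgroup.mem_bot]
  exact h.cen (Subgroup.mem_inf.1 hx).1 (fun c hcC => (hc c hcC x (Subgroup.mem_inf.1 hx).2).symm)

/-- normalising each other and meeting trivially implies commuting -/
theorem comm_of_inf_bot {A B : Subgroup G} (h : A ⊓ B = ⊥) (hA : ∀ b ∈ B, ∀ a ∈ A, b * a * b⁻¹ ∈ A)
    (hB : ∀ a ∈ A, ∀ b ∈ B, a * b * a⁻¹ ∈ B) : ∀ a ∈ A, ∀ b ∈ B, a * b = b * a := by
  intro a ha b hb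
  have h1 : a * b * a⁻¹ * b⁻¹ ∈ A ⊓ B := by
    refine Subgroup.mem_inf.2 ⟨?_, B.mul_mem (hB a ha b hb) (B.inv_mem hb)⟩
    have := A.mul_mem ha (hA b hb a⁻¹ (A.inv_mem ha))
    rwa [show a * b * a⁻¹ * b⁻¹ = a * (b * a⁻¹ * b⁻¹) by group]
  rw [h, Subgroup.mem_bot] at h1
  calc a * b = (a * b * a⁻¹ * b⁻¹) * b * a := by group
    _ = b * a := by rw [h1]; group

namespace Fam

variable {T : Subgroup G} {𝒞 : Set (Subgroup G)}

theorem sup_le (h : Fam T 𝒞) : sSup 𝒞 ≤ T := sSup_le h.le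

theorem pow56 [Finite G] (h : Fam T 𝒞) {s : G} (hs : s ∈ sSup 𝒞) : s ^ 56 = 1 := by
  obtain ⟨f, -, -, -, h4⟩ := dec h.comm hs
  exact h4 (fun C hC c hc => by
    obtain ⟨V, hV⟩ := h.fr C hC
    exact hV.pow56 hc)

/-- elements of the join supported on a subfamily -/
theorem supp [Finite G] (h : Fam T 𝒞) (P : Set (Subgroup G)) {s : G} (hs : s ∈ sSup 𝒞)
    (hc : ∀ C ∈ 𝒞, C ∉ P → ∀ c ∈ C, s * c = c * s) : s ∈ sSup (𝒞 ∩ P) := by
  obtain ⟨f, h1, h2, h3, -⟩ := dec h.comm hs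
  suffices hsub : {C | C ∈ 𝒞 ∧ f C ≠ 1} ⊆ 𝒞 ∩ P by
    exact (show sSup {C | C ∈ 𝒞 ∧ f C ≠ 1} ≤ sSup (𝒞 ∩ P) from sSup_le_sSup hsub) h3
  rintro C ⟨hC, hne⟩
  refine ⟨hC, ?_⟩
  by_contra hP
  apply hne
  obtain ⟨V, hV⟩ := h.fr C hC
  refine hV.cen (h1 C hC) (fun c hcC => ?_)
  have e1 := h2 C hC c hcC
  have e2 : s * c * s⁻¹ = c := by rw [hc C hC hP c hcC]; group
  rw [e2] at e1
  calc f C * c = (f C * c * (f C)⁻¹) * f C := by group
    _ = c * f C := by rw [← e1]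

theorem cenS [Finite G] (h : Fam T 𝒞) {s : G} (hs : s ∈ sSup 𝒞)
    (hc : ∀ C ∈ 𝒞, ∀ c ∈ C, s * c = c * s) : s = 1 := by
  have := h.supp ∅ hs (fun C hC _ => hc C hC)
  rw [Set.inter_empty, sSup_empty, Subgroup.mem_bot] at this
  exact this

/-- Krull-Schmidt -/
theorem ks [Finite G] (h : Fam T 𝒞) {B W : Subgroup G} (hB : Fr B W) (hle : B ≤ sSup 𝒞)
    (hn : ∀ s ∈ sSup 𝒞, ∀ b ∈ B, s * b * s⁻¹ ∈ B) : B ∈ 𝒞 := by
  have hCB : ∀ C ∈ 𝒞, ∀ b ∈ B, ∀ c ∈ C, b * c * b⁻¹ ∈ C := by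
    intro C hC b hb c hc
    exact h.nrm C hC b (h.sup_le (hle hb)) c hc
  have hBC : ∀ C ∈ 𝒞, ∀ c ∈ C, ∀ b ∈ B, c * b * c⁻¹ ∈ B := by
    intro C hC c hc b hb
    exact hn c (le_sSup hC hc) b hb
  have h1 : ∃ C ∈ 𝒞, B ⊓ C ≠ ⊥ := by
    by_contra hcon
    push Not at hcon
    apply hB.ne_bot
    rw [eq_bot_iff]
    intro b hb
    rw [Subgroup.mem_bot]
    apply h.cenS (hle hb)
    intro C hC c hc
    exact comm_of_inf_bot (hcon C hC) (hBC C hC) (hCB C hC) b hb c hc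
  obtain ⟨C, hC, hne⟩ := h1
  obtain ⟨V, hV⟩ := h.fr C hC
  obtain ⟨h2, h3⟩ := hB.nor (N := B ⊓ C) inf_le_left (fun b hb n hn' =>
    Subgroup.mem_inf.2 ⟨B.mul_mem (B.mul_mem hb (Subgroup.mem_inf.1 hn').1) (B.inv_mem hb),
      hCB C hC b hb n (Subgroup.mem_inf.1 hn').2⟩) hne
  have hBleC : B ≤ C := by
    intro b hb
    have hbs := h.supp {C} (hle hb) (by
      intro D hD hDC c hc
      have hDC' : D ≠ C := hDC
      have h5 : B ⊓ D = ⊥ := by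
        by_contra hne'
        obtain ⟨h6, -⟩ := hB.nor (N := B ⊓ D) inf_le_left (fun b hb n hn' =>
          Subgroup.mem_inf.2 ⟨B.mul_mem (B.mul_mem hb (Subgroup.mem_inf.1 hn').1) (B.inv_mem hb),
            hCB D hD b hb n (Subgroup.mem_inf.1 hn').2⟩) hne'
        have h7 : C ⊓ D = ⊥ := hV.inf_bot (h.comm C hC D hD (Ne.symm hDC'))
        apply hB.V_ne_bot
        rw [eq_bot_iff, ← h7]
        exact le_inf (h2.trans inf_le_right) (h6.trans inf_le_right)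
      exact comm_of_inf_bot h5 (hBC D hD) (hCB D hD) b hb c hc)
    have h8 : 𝒞 ∩ {C} ⊆ {C} := Set.inter_subset_right
    have h9 := (show sSup (𝒞 ∩ {C}) ≤ sSup {C} from sSup_le_sSup h8) hbs
    rwa [sSup_singleton] at h9
  rwa [hB.eq_of_le hV hBleC]

/-- the join is invariant under everything that normalises `T` -/
theorem sup_inv [Finite G] (h : Fam T 𝒞) {g : G} (hg : ∀ t ∈ T, g * t * g⁻¹ ∈ T) :
    ∀ s ∈ sSup 𝒞, g * s * g⁻¹ ∈ sSup 𝒞 := by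
  intro s hs
  have h1 : g * s * g⁻¹ ∈ T := hg s (h.sup_le hs)
  obtain ⟨k, hk⟩ := h.pg _ h1
  have h2 : (g * s * g⁻¹) ^ 56 = 1 := by
    rw [conj_pow, h.pow56 hs]; group
  have h3 : Nat.Coprime (3 ^ k) 56 := Nat.Coprime.pow_left k (by norm_num)
  obtain ⟨m, hm⟩ := Nat.exists_mul_mod_eq_one_of_coprime h3 (by norm_num)
  have h4 : g * s * g⁻¹ = ((g * s * g⁻¹) ^ 3 ^ k) ^ m := by
    rw [← pow_mul, ← Nat.div_add_mod (3 ^ k * m) 56, pow_add, pow_mul, h2, hm.2]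
    simp
  rw [h4]
  exact Subgroup.pow_mem _ hk m

/-- components are permuted -/
theorem conj_mem [Finite G] (h : Fam T 𝒞) {g : G} (hg : ∀ t ∈ T, g * t * g⁻¹ ∈ T)
    (hg' : ∀ t ∈ T, g⁻¹ * t * g ∈ T) {C : Subgroup G} (hC : C ∈ 𝒞) :
    C.map (MulAut.conj g).toMonoidHom ∈ 𝒞 := by
  obtain ⟨V, hV⟩ := h.fr C hC
  have h1 : Fr (C.map (MulAut.conj g).toMonoidHom) (V.map (MulAut.conj g).toMonoidHom) :=
    hV.map_of _ (fun c _ hc => by
      have : (MulAut.conj g) c = 1 := hc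
      simpa using this)
  refine h.ks h1 ?_ ?_
  · rintro _ ⟨c, hc, rfl⟩
    exact h.sup_inv hg c (le_sSup hC hc)
  · rintro s hs _ ⟨c, hc, rfl⟩
    have h2 : g⁻¹ * s * g ∈ T := hg' s (h.sup_le hs)
    refine ⟨(g⁻¹ * s * g) * c * (g⁻¹ * s * g)⁻¹, h.nrm C hC _ h2 c hc, ?_⟩
    simp only [MulEquiv.toMonoidHom_eq_coe, MonoidHom.coe_coe, MulAut.conj_apply]
    group

end Fam

end Pool.Agent.H596R3
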