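import Mathlib

set_option autoImplicit false
set_option linter.all false

/-!
# Frobenius groups of order 56 inside a group
-/

namespace Pool.Agent.H596R3

variable {G : Type} [Group G]

/-- `C` is a Frobenius group of order 56 with kernel `V` of order 8. -/
structure Fr (C V : Subgroup G) : Prop where
  le : V ≤ C
  cC : Nat.card C = 56
  cV : Nat.card V = 8
  nrm : ∀ c ∈ C, ∀ v ∈ V, c * v * c⁻¹ ∈ V
  comm : ∀ v ∈ V, ∀ w ∈ V, v * w = w * v
  cent : ∀ v ∈ V, v ≠ 1 → ∀ c ∈ C, c * v = v * c → c ∈ V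
  pow : ∀ c ∈ C, c ∉ V → c ^ 7 = 1

/-- conjugation fixed point congruence -/
theorem fp_mod (p n : ℕ) [hp : Fact p.Prime] (S : Set G) [hS : Finite S] (x : G)
    (hx : x ^ p ^ n = 1) (h : ∀ s ∈ S, x * s * x⁻¹ ∈ S) :
    Nat.card S ≡ Nat.card {s : G // s ∈ S ∧ x * s = s * x} [MOD p] := by
  classical
  let f : Function.End S := fun s => ⟨x * s * x⁻¹, h s s.2⟩
  have hit : ∀ (k : ℕ) (s : S), (((f ^ k : Function.End S) s : S) : G) = x ^ k * s * (x ^ k)⁻¹ := by
    intro k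
    induction k with
    | zero => intro s; rw [pow_zero]; show (s : G) = _; simp
    | succ k ih =>
      intro s
      have h1 : (f ^ (k + 1) : Function.End S) s = f ((f ^ k : Function.End S) s) := by
        rw [pow_succ']; rfl
      rw [h1]
      show x * (((f ^ k : Function.End S) s : S) : G) * x⁻¹ = _
      rw [ih s, pow_succ']
      group
  have hf : f ^ p ^ n = 1 := by
    funext s
    apply Subtype.ext
    rw [hit, hx]
    show _ = (s : G)
    simp
  haveI := Fintype.ofFinite S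
  have key := Equiv.Perm.card_fixedPoints_modEq hf
  rw [Nat.card_eq_fintype_card]
  refine key.trans ?_
  have : Fintype.card (Function.fixedPoints f) = Nat.card {s : G // s ∈ S ∧ x * s = s * x} := by
    rw [← Nat.card_eq_fintype_card]
    refine Nat.card_congr
      { toFun := fun s => ⟨s.1.1, s.1.2, ?_⟩
        invFun := fun s => ⟨⟨s.1, s.2.1⟩, ?_⟩
        left_inv := fun s => rfl
        right_inv := fun s => rfl }
    · have h1 := s.2
      have h2 : x * s.1.1 * x⁻¹ = s.1.1 := congrArg Subtype.val h1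
      calc x * s.1.1 = (x * s.1.1 * x⁻¹) * x := by group
        _ = s.1.1 * x := by rw [h2]
    · apply Subtype.ext
      show x * s.1 * x⁻¹ = s.1
      rw [s.2.2]; group
  rw [this]

namespace Fr

variable {C V : Subgroup G}

theorem finC (h : Fr C V) : Finite C := Nat.finite_of_card_ne_zero (by rw [h.cC]; norm_num)

theorem finV (h : Fr C V) : Finite V := Nat.finite_of_card_ne_zero (by rw [h.cV]; norm_num)

theorem exists_ne (h : Fr C V) : ∃ v ∈ V, v ≠ 1 := by
  by_contra hcon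
  push Not at hcon
  have : V = ⊥ := by
    rw [eq_bot_iff]
    intro v hv
    exact Subgroup.mem_bot.2 (hcon v hv)
  have h1 := h.cV
  rw [this] at h1
  simp at h1

theorem exists_not (h : Fr C V) : ∃ c ∈ C, c ∉ V := by
  by_contra hcon
  push Not at hcon
  have : C = V := le_antisymm (fun c hc => hcon c hc) h.le
  have h1 := h.cC
  rw [this, h.cV] at h1
  norm_num at h1

/-- irreducibility -/
theorem irr (h : Fr C V) {A : Subgroup G} (hA : A ≤ V) {c : G} (hc : c ∈ C) (hcV : c ∉ V)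
    (hn : ∀ a ∈ A, c * a * c⁻¹ ∈ A) : A = ⊥ ∨ A = V := by
  haveI := h.finV
  haveI : Finite A := Finite.of_injective _ (Subgroup.inclusion_injective hA)
  haveI : Fact (Nat.Prime 7) := ⟨by norm_num⟩
  have h1 := fp_mod 7 1 (A : Set G) c (by simpa using h.pow c hc hcV) hn
  have h2 : Nat.card {s : G // s ∈ (A : Set G) ∧ c * s = s * c} = 1 := by
    rw [Nat.card_eq_one_iff_unique]
    refine ⟨⟨fun a b => ?_⟩, ⟨⟨1, A.one_mem, by simp⟩⟩⟩
    have key : ∀ s : {s : G // s ∈ (A : Set G) ∧ c * s = s * c}, s.1 = 1 := by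
      intro s
      by_contra hs
      exact hcV (h.cent s.1 (hA s.2.1) hs c hc s.2.2)
    exact Subtype.ext ((key a).trans (key b).symm)
  rw [h2] at h1
  have h3 : Nat.card A ∣ 8 := by
    rw [← h.cV]; exact Subgroup.card_dvd_of_le hA
  have h4 : Nat.card A = 1 ∨ Nat.card A = 8 := by
    have h5 : Nat.card A ≤ 8 := Nat.le_of_dvd (by norm_num) h3
    have h6 : Nat.card A % 7 = 1 := h1
    interval_cases hcard : Nat.card A <;> simp_all
  rcases h4 with h4 | h4
  · left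
    exact Subgroup.card_eq_one.1 h4
  · right
    exact Subgroup.eq_of_le_of_card_ge hA (by rw [h4, h.cV])

/-- subgroups between `V` and `C` -/
theorem mid (h : Fr C V) {N : Subgroup G} (h1 : V ≤ N) (h2 : N ≤ C) : N = V ∨ N = C := by
  haveI := h.finC
  haveI : Finite N := Finite.of_injective _ (Subgroup.inclusion_injective h2)
  have h3 : Nat.card N ∣ 56 := by rw [← h.cC]; exact Subgroup.card_dvd_of_le h2
  have h4 : 8 ∣ Nat.card N := by rw [← h.cV]; exact Subgroup.card_dvd_of_le h1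
  obtain ⟨k, hk⟩ := h4
  rw [hk] at h3
  have h5 : k ∣ 7 := by
    rw [show (56 : ℕ) = 8 * 7 by norm_num] at h3
    exact Nat.dvd_of_mul_dvd_mul_left (by norm_num) h3
  rcases (Nat.dvd_prime (by norm_num : Nat.Prime 7)).1 h5 with h6 | h6
  · left
    exact (Subgroup.eq_of_le_of_card_ge h1 (by rw [hk, h6, h.cV])).symm
  · right
    exact Subgroup.eq_of_le_of_card_ge h2 (by rw [hk, h6, h.cC])

/-- the normal subgroups of `C` -/
theorem nor (h : Fr C V) {N : Subgroup G} (h1 : N ≤ C) (hn : ∀ c ∈ C, ∀ n ∈ N, c * n * c⁻¹ ∈ N)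
    (hb : N ≠ ⊥) : V ≤ N ∧ (N = V ∨ N = C) := by
  have hV : V ≤ N := by
    obtain ⟨c, hc, hcV⟩ := h.exists_not
    have hA : N ⊓ V = ⊥ ∨ N ⊓ V = V :=
      h.irr inf_le_right hc hcV (fun a ha => ⟨hn c hc a ha.1, h.nrm c hc a ha.2⟩)
    rcases hA with hA | hA
    · exfalso
      apply hb
      rw [eq_bot_iff]
      intro n hnN
      obtain ⟨v, hv, hv1⟩ := h.exists_ne
      have hc1 : n * v * n⁻¹ * v⁻¹ ∈ N ⊓ V := by
        refine Subgroup.mem_inf.2 ⟨?_, ?_⟩
        · have := N.mul_mem hnN (hn v (h.le hv) n⁻¹ (N.inv_mem hnN))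
          rwa [show n * v * n⁻¹ * v⁻¹ = n * (v * n⁻¹ * v⁻¹) by group]
        · exact V.mul_mem (h.nrm n (h1 hnN) v hv) (V.inv_mem hv)
      rw [hA, Subgroup.mem_bot] at hc1
      have hcm : n * v = v * n := by
        calc n * v = (n * v * n⁻¹ * v⁻¹) * v * n := by group
          _ = v * n := by rw [hc1]; group
      have : n ∈ N ⊓ V := ⟨hnN, h.cent v hv hv1 n (h1 hnN) hcm⟩
      rwa [hA] at this
    · rw [← hA]; exact inf_le_left
  exact ⟨hV, h.mid hV h1⟩

/-- trivial centre -/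
theorem cen (h : Fr C V) {z : G} (hz : z ∈ C) (hc : ∀ c ∈ C, z * c = c * z) : z = 1 := by
  by_contra hz1
  obtain ⟨v, hv, hv1⟩ := h.exists_ne
  have h1 : z ∈ V := h.cent v hv hv1 z hz (hc v (h.le hv))
  obtain ⟨c, hcC, hcV⟩ := h.exists_not
  exact hcV (h.cent z h1 hz1 c hcC (hc c hcC).symm)

/-- a 3-element acting trivially modulo `V` acts trivially -/
theorem three (h : Fr C V) {x : G} {k : ℕ} (hx : x ^ 3 ^ k = 1)
    (hm : ∀ c ∈ C, x * c * x⁻¹ * c⁻¹ ∈ V) : ∀ c ∈ C, x * c = c * x := by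
  haveI := h.finC
  haveI := h.finV
  haveI : Fact (Nat.Prime 3) := ⟨by norm_num⟩
  obtain ⟨c₀, hc, hcV⟩ := h.exists_not
  let S : Set G := (fun v => c₀ * v) '' (V : Set G)
  have hxV : ∀ v ∈ V, x * v * x⁻¹ ∈ V := by
    intro v hv
    have := V.mul_mem (hm v (h.le hv)) hv
    convert this using 1
    group
  have hS1 : ∀ s ∈ S, x * s * x⁻¹ ∈ S := by
    rintro s ⟨v, hv, rfl⟩
    have h1 : x * c₀ * x⁻¹ * c₀⁻¹ ∈ V := hm c₀ hc
    have h2 : c₀⁻¹ * (x * c₀ * x⁻¹ * c₀⁻¹) * c₀⁻¹⁻¹ ∈ V := h.nrm c₀⁻¹ (C.inv_mem hc) _ h1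
    refine ⟨_, V.mul_mem h2 (hxV v hv), ?_⟩
    simp only
    group
  haveI hSf : Finite S := Set.Finite.image _ (Set.toFinite _)
  have hScard : Nat.card S = 8 := by
    have : Nat.card S = Nat.card (V : Set G) :=
      Nat.card_image_of_injective (mul_right_injective c₀) _
    rw [this]
    exact h.cV
  have h1 := fp_mod 3 k S x hx hS1
  rw [hScard] at h1
  have h2 : 1 < Nat.card {s : G // s ∈ S ∧ x * s = s * x} := by
    have h3 : 8 % 3 = Nat.card {s : G // s ∈ S ∧ x * s = s * x} % 3 := h1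
    omega
  haveI : Finite {s : G // s ∈ S ∧ x * s = s * x} :=
    Finite.of_injective (fun s : {s : G // s ∈ S ∧ x * s = s * x} => (⟨s.1, s.2.1⟩ : S))
      (fun a b hab => Subtype.ext (congrArg (fun z : S => (z : G)) hab))
  obtain ⟨g₁, g₂, hne⟩ := (Finite.one_lt_card_iff_nontrivial.1 h2).exists_pair_ne
  obtain ⟨⟨v₁, hv₁, e₁⟩, f₁⟩ := g₁.2
  obtain ⟨⟨v₂, hv₂, e₂⟩, f₂⟩ := g₂.2
  simp only at e₁ e₂
  have hg₁ : g₁.1 ∈ C := by rw [← e₁]; exact C.mul_mem hc (h.le hv₁)
  have hg₁V : g₁.1 ∉ V := by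
    rw [← e₁]
    intro hcon
    apply hcV
    have := V.mul_mem hcon (V.inv_mem hv₁)
    convert this using 1
    group
  let A : Subgroup G := V ⊓ Subgroup.centralizer {x}
  have hA : ∀ a ∈ A, g₁.1 * a * g₁.1⁻¹ ∈ A := by
    intro a ha
    refine Subgroup.mem_inf.2 ⟨h.nrm _ hg₁ a (Subgroup.mem_inf.1 ha).1, ?_⟩
    have ha2 := (Subgroup.mem_inf.1 ha).2
    rw [Subgroup.mem_centralizer_singleton_iff] at ha2
    rw [Subgroup.mem_centralizer_singleton_iff]
    have f1' : g₁.1 * x = x * g₁.1 := f₁.symm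
    have f3 : g₁.1⁻¹ * x = x * g₁.1⁻¹ := by
      have hc : Commute g₁.1 x := f1'
      exact (hc.inv_left).eq
    calc g₁.1 * a * g₁.1⁻¹ * x = g₁.1 * a * (g₁.1⁻¹ * x) := by group
      _ = g₁.1 * (a * x) * g₁.1⁻¹ := by rw [f3]; group
      _ = (g₁.1 * x) * a * g₁.1⁻¹ := by rw [ha2]; group
      _ = x * (g₁.1 * a * g₁.1⁻¹) := by rw [f1']; group
  rcases h.irr inf_le_left hg₁ hg₁V hA with h5 | h5
  · exfalso
    apply hne
    have hmem : v₁⁻¹ * v₂ ∈ A := by
      refine Subgroup.mem_inf.2 ⟨V.mul_mem (V.inv_mem hv₁) hv₂, ?_⟩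
      rw [Subgroup.mem_centralizer_singleton_iff]
      have hc1 : Commute g₁.1 x := f₁.symm
      have hc2 : Commute g₂.1 x := f₂.symm
      have h6 : v₁⁻¹ * v₂ = g₁.1⁻¹ * g₂.1 := by rw [← e₁, ← e₂]; group
      rw [h6]
      exact (hc1.inv_left.mul_left hc2).eq
    have hmem' : v₁⁻¹ * v₂ ∈ (⊥ : Subgroup G) := h5 ▸ hmem
    rw [Subgroup.mem_bot] at hmem'
    have h7 : v₁ = v₂ := by
      calc v₁ = v₁ * (v₁⁻¹ * v₂) := by rw [hmem']; simp
        _ = v₂ := by group
    apply Subtype.ext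
    rw [← e₁, ← e₂, h7]
  · have h6 : V ≤ C ⊓ Subgroup.centralizer {x} := by
      rw [← h5]
      exact inf_le_inf_right _ h.le
    rcases h.mid h6 inf_le_left with h7 | h7
    · exfalso
      apply hg₁V
      rw [← h7]
      refine Subgroup.mem_inf.2 ⟨hg₁, ?_⟩
      rw [Subgroup.mem_centralizer_singleton_iff]
      exact f₁.symm
    · intro c hcC
      rw [← h7] at hcC
      have := (Subgroup.mem_inf.1 hcC).2
      rw [Subgroup.mem_centralizer_singleton_iff] at this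
      exact this.symm

theorem pow56 (h : Fr C V) {c : G} (hc : c ∈ C) : c ^ 56 = 1 := by
  haveI := h.finC
  have h1 : (⟨c, hc⟩ : C) ^ Nat.card C = 1 := pow_card_eq_one'
  rw [h.cC] at h1
  exact congrArg Subtype.val h1

end Fr

end Pool.Agent.H596R3
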