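import Pool.Agent.H596R3.Sup2

set_option autoImplicit false
set_option linter.all false

namespace Pool.Agent.H596R3

theorem half {P : Type} [Group P] [Finite P] {T : Subgroup P} {𝒞 : Set (Subgroup P)}
    (hF : Fam T 𝒞) (hT : T.Normal) {H' : Type} [Group H'] (π : P →* H') {z y : P} (hz : z ∈ T)
    {k : ℕ} (hy : y ^ 3 ^ k = 1) (hπ : π y = 1)
    (hconj : ∀ p, π p = 1 → y * p * y⁻¹ = z * p * z⁻¹) {C : Subgroup P} (hC : C ∈ 𝒞) :
    (∀ c ∈ C, y * c = c * y) ∨ (∀ c ∈ C, π c = 1) := by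
  obtain ⟨V, hV⟩ := hF.fr C hC
  haveI := hV.finC
  have hKn : ∀ c ∈ C, ∀ n ∈ C ⊓ π.ker, c * n * c⁻¹ ∈ C ⊓ π.ker := by
    intro c hc n hn
    refine Subgroup.mem_inf.2 ⟨C.mul_mem (C.mul_mem hc (Subgroup.mem_inf.1 hn).1) (C.inv_mem hc), ?_⟩
    have := (Subgroup.mem_inf.1 hn).2
    rw [MonoidHom.mem_ker] at this ⊢
    rw [map_mul, map_mul, map_inv, this]
    simp
  -- y normalises C
  have hA : ∀ c ∈ C, y * c * y⁻¹ ∈ C := by
    by_contra hcon
    have hC' : C.map (MulAut.conj y).toMonoidHom ∈ 𝒞 := by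
      refine hF.conj_mem (fun t ht => hT.conj_mem t ht y) (fun t ht => ?_) hC
      have := hT.conj_mem t ht y⁻¹
      rwa [inv_inv] at this
    have hne : C ≠ C.map (MulAut.conj y).toMonoidHom := by
      intro h0
      apply hcon
      intro c hc
      rw [h0]
      exact mem_map_conj hc
    have hcom := hF.comm C hC _ hC' hne
    have hcom2 : ∀ c ∈ C, ∀ d ∈ C, π c * π d = π d * π c := by
      intro c hc d hd
      have h1 := congrArg π (hcom c hc _ (mem_map_conj hd))
      simpa [hπ] using h1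
    have hb : C ⊓ π.ker ≠ ⊥ := by
      intro hb
      obtain ⟨v, hv, hv1⟩ := hV.exists_ne
      apply hv1
      refine hV.cen (hV.le hv) (fun d hd => ?_)
      have h5 : v * d * v⁻¹ * d⁻¹ ∈ C ⊓ π.ker := by
        refine Subgroup.mem_inf.2 ⟨C.mul_mem (C.mul_mem (C.mul_mem (hV.le hv) hd)
          (C.inv_mem (hV.le hv))) (C.inv_mem hd), ?_⟩
        rw [MonoidHom.mem_ker, map_mul, map_mul, map_mul, map_inv, map_inv,
          hcom2 v (hV.le hv) d hd]
        group
      rw [hb, Subgroup.mem_bot] at h5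
      calc v * d = (v * d * v⁻¹ * d⁻¹) * d * v := by group
        _ = d * v := by rw [h5]; group
    obtain ⟨hVk, -⟩ := hV.nor (N := C ⊓ π.ker) inf_le_left hKn hb
    obtain ⟨v, hv, hv1⟩ := hV.exists_ne
    have hvk : π v = 1 := MonoidHom.mem_ker.1 (Subgroup.mem_inf.1 (hVk hv)).2
    have h6 : y * v * y⁻¹ ∈ C ⊓ C.map (MulAut.conj y).toMonoidHom := by
      refine Subgroup.mem_inf.2 ⟨?_, mem_map_conj (hV.le hv)⟩
      rw [hconj v hvk]
      exact hF.nrm C hC z hz v (hV.le hv)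
    rw [hV.inf_bot hcom, Subgroup.mem_bot] at h6
    apply hv1
    calc v = y⁻¹ * (y * v * y⁻¹) * y := by group
      _ = 1 := by rw [h6]; group
  by_cases hall : C ⊓ π.ker = C
  · right
    intro c hc
    rw [← hall] at hc
    exact MonoidHom.mem_ker.1 (Subgroup.mem_inf.1 hc).2
  · left
    have hle : C ⊓ π.ker ≤ V := by
      by_cases hb : C ⊓ π.ker = ⊥
      · rw [hb]; exact bot_le
      · obtain ⟨-, h3⟩ := hV.nor (N := C ⊓ π.ker) inf_le_left hKn hb
        rcases h3 with h3 | h3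
        · rw [h3]
        · exact absurd h3 hall
    refine hV.three hy (fun c hc => hle (Subgroup.mem_inf.2 ⟨C.mul_mem (hA c hc) (C.inv_mem hc), ?_⟩))
    rw [MonoidHom.mem_ker, map_mul, map_mul, map_mul, map_inv, map_inv, hπ]
    simp

section

variable {G H : Type} [Group G] [Group H] [Finite G] [Finite H]

theorem dich {K : Subgroup (G × H)} (hK : K.Normal) {𝒞 : Set (Subgroup (G × H))}
    (hF : Fam (T3 K) 𝒞) {C : Subgroup (G × H)} (hC : C ∈ 𝒞) :
    (∀ c ∈ C, c.2 = 1) ∨ (∀ c ∈ C, c.1 = 1) := by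
  have hT := T3_normal hK
  obtain ⟨V, hV⟩ := hF.fr C hC
  have hex : ∃ z ∈ K, (∃ k : ℕ, z ^ 3 ^ k = 1) ∧ ¬ ∀ c ∈ C, z * c = c * z := by
    by_contra hcon
    push Not at hcon
    have h1 : T3 K ≤ Subgroup.centralizer (C : Set (G × H)) := by
      refine (Subgroup.closure_le _).2 ?_
      rintro x ⟨hx, k, hk⟩
      rw [SetLike.mem_coe, Subgroup.mem_centralizer_iff]
      intro c hc
      exact (hcon x hx ⟨k, hk⟩ c hc).symm
    obtain ⟨v, hv, hv1⟩ := hV.exists_ne
    apply hv1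
    refine hV.cen (hV.le hv) (fun d hd => ?_)
    exact Subgroup.mem_centralizer_iff.1 (h1 (hF.le C hC hd)) v (hV.le hv)
  obtain ⟨z, hzK, ⟨k, hk⟩, hzC⟩ := hex
  have hzT : z ∈ T3 K := mem_T3 hzK hk
  have hk1 : z.1 ^ 3 ^ k = 1 := congrArg Prod.fst hk
  have hk2 : z.2 ^ 3 ^ k = 1 := congrArg Prod.snd hk
  have h1 := half hF hT (MonoidHom.snd G H) (z := z) (y := (z.1, 1)) hzT (k := k)
    (by ext <;> simp [hk1]) rfl (by
      rintro ⟨p, q⟩ hp
      have hq : q = 1 := hp
      subst hq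
      ext <;> simp) hC
  have h2 := half hF hT (MonoidHom.fst G H) (z := z) (y := (1, z.2)) hzT (k := k)
    (by ext <;> simp [hk2]) rfl (by
      rintro ⟨p, q⟩ hp
      have hq : p = 1 := hp
      subst hq
      ext <;> simp) hC
  rcases h1 with h1 | h1
  · rcases h2 with h2 | h2
    · exfalso
      apply hzC
      intro c hc
      have e : z = (z.1, 1) * (1, z.2) := by ext <;> simp
      rw [e, mul_assoc, h2 c hc, ← mul_assoc, h1 c hc, mul_assoc]
    · exact Or.inr h2
  · exact Or.inl h1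

theorem XS_fst {K : Subgroup (G × H)} (hK : K.Normal) (h : XS K) :
    XS (K.map (MonoidHom.fst G H)) := by
  obtain ⟨𝒞, hF⟩ := h
  have h1 := hF.map_gen (MonoidHom.fst G H) (fun C hC => by
    rcases dich hK hF hC with h | h
    · left
      intro c hc hc1
      exact Prod.ext hc1 (h c hc)
    · right
      exact h)
  rw [← T3_map] at h1
  exact ⟨_, h1⟩

theorem XS_snd {K : Subgroup (G × H)} (hK : K.Normal) (h : XS K) :
    XS (K.map (MonoidHom.snd G H)) := by
  obtain ⟨𝒞, hF⟩ := h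
  have h1 := hF.map_gen (MonoidHom.snd G H) (fun C hC => by
    rcases dich hK hF hC with h | h
    · right
      exact h
    · left
      intro c hc hc1
      exact Prod.ext (h c hc) hc1)
  rw [← T3_map] at h1
  exact ⟨_, h1⟩

end

/-- the class -/
def X : (G : Type) → [Group G] → Prop := fun G _ => Finite G ∧ Group.IsSolvable G ∧ XS (⊤ : Subgroup G)

theorem X_sub {G : Type} [Group G] [Finite G] [Group.IsSolvable G] (K : Subgroup G) : X K ↔ XS K := by
  constructor
  · rintro ⟨-, -, h⟩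
    exact (XS_subtype K).1 h
  · intro h
    exact ⟨inferInstance, inferInstance, (XS_subtype K).2 h⟩

theorem X_iso (G H : Type) [Group G] [Group H] (e : Nonempty (G ≃* H)) (h : X G) : X H := by
  obtain ⟨e⟩ := e
  obtain ⟨h1, h2, h3⟩ := h
  haveI := h1
  haveI := h2
  refine ⟨Finite.of_equiv _ e.toEquiv, Group.isSolvable_of_surjective (f := e.toMonoidHom) e.surjective, ?_⟩
  have := h3.map e.toMonoidHom e.injective
  rwa [← MonoidHom.range_eq_map, MonoidHom.range_eq_top.2 e.surjective] at this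

theorem X_normal (G : Type) [Group G] (N : Subgroup G) (hN : N.Normal) (h : X G) : X N := by
  obtain ⟨h1, h2, h3⟩ := h
  haveI := h1
  haveI := h2
  exact (X_sub N).2 (XS_normal h3 hN)

theorem X_sup (G : Type) [Group G] [Finite G] (hs : Group.IsSolvable G) (M N : Subgroup G)
    (hM : M.Normal) (hN : N.Normal) (h1 : X M) (h2 : X N) : X ↥(M ⊔ N) := by
  haveI := hs
  exact (X_sub _).2 (XS_sup hM hN ((X_sub M).1 h1) ((X_sub N).1 h2))

theorem X_rad (G H : Type) [Group G] [Group H] [Finite G] [Finite H] (hG : Group.IsSolvable G)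
    (hH : Group.IsSolvable H) :
    (⨆ (K : Subgroup (G × H)) (_ : K.Normal ∧ X ↥K), K) =
      (⨆ (A : Subgroup G) (_ : A.Normal ∧ X ↥A), A).prod
        (⨆ (B : Subgroup H) (_ : B.Normal ∧ X ↥B), B) := by
  haveI := hG
  haveI := hH
  apply le_antisymm
  · refine iSup₂_le ?_
    rintro K ⟨hK, hX⟩
    have hXS := (X_sub K).1 hX
    intro x hx
    rw [Subgroup.mem_prod]
    constructor
    · have h1 : (K.map (MonoidHom.fst G H)).Normal := hK.map _ Prod.fst_surjective
      exact (le_iSup₂_of_le (K.map (MonoidHom.fst G H)) ⟨h1, (X_sub _).2 (XS_fst hK hXS)⟩ le_rfl :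
        K.map (MonoidHom.fst G H) ≤ _) ⟨x, hx, rfl⟩
    · have h1 : (K.map (MonoidHom.snd G H)).Normal := hK.map _ Prod.snd_surjective
      exact (le_iSup₂_of_le (K.map (MonoidHom.snd G H)) ⟨h1, (X_sub _).2 (XS_snd hK hXS)⟩ le_rfl :
        K.map (MonoidHom.snd G H) ≤ _) ⟨x, hx, rfl⟩
  · intro x hx
    rw [Subgroup.mem_prod] at hx
    have e : x = MonoidHom.inl G H x.1 * MonoidHom.inr G H x.2 := by
      ext <;> simp
    rw [e]
    apply Subgroup.mul_mem
    · have h1 : (⨆ (A : Subgroup G) (_ : A.Normal ∧ X ↥A), A) ≤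
          (⨆ (K : Subgroup (G × H)) (_ : K.Normal ∧ X ↥K), K).comap (MonoidHom.inl G H) := by
        refine iSup₂_le ?_
        rintro A ⟨hA, hX⟩
        rw [← Subgroup.map_le_iff_le_comap]
        refine le_iSup₂_of_le (A.map (MonoidHom.inl G H)) ⟨?_, ?_⟩ le_rfl
        · constructor
          rintro _ ⟨a, ha, rfl⟩ g
          refine ⟨g.1 * a * g.1⁻¹, hA.conj_mem a ha g.1, ?_⟩
          ext <;> simp
        · exact (X_sub _).2 (((X_sub A).1 hX).map _ (fun a b h => congrArg Prod.fst h))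
      exact h1 hx.1
    · have h1 : (⨆ (A : Subgroup H) (_ : A.Normal ∧ X ↥A), A) ≤
          (⨆ (K : Subgroup (G × H)) (_ : K.Normal ∧ X ↥K), K).comap (MonoidHom.inr G H) := by
        refine iSup₂_le ?_
        rintro A ⟨hA, hX⟩
        rw [← Subgroup.map_le_iff_le_comap]
        refine le_iSup₂_of_le (A.map (MonoidHom.inr G H)) ⟨?_, ?_⟩ le_rfl
        · constructor
          rintro _ ⟨a, ha, rfl⟩ g
          refine ⟨g.2 * a * g.2⁻¹, hA.conj_mem a ha g.2, ?_⟩
          ext <;> simp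
        · exact (X_sub _).2 (((X_sub A).1 hX).map _ (fun a b h => congrArg Prod.snd h))
      exact h1 hx.2

end Pool.Agent.H596R3
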