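import Pool.Agent.H596R3.Cls

set_option autoImplicit false
set_option linter.all false

namespace Pool.Agent.H596R3

variable {G : Type} [Group G]

theorem Fam.mem_of [Finite G] {T : Subgroup G} {𝒞 : Set (Subgroup G)} (h : Fam T 𝒞) {u : G}
    (hu : u ∈ T) (h56 : u ^ 56 = 1) : u ∈ sSup 𝒞 := by
  obtain ⟨k, hk⟩ := h.pg u hu
  have h3 : Nat.Coprime (3 ^ k) 56 := Nat.Coprime.pow_left k (by norm_num)
  obtain ⟨m, hm⟩ := Nat.exists_mul_mod_eq_one_of_coprime h3 (by norm_num)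
  have h4 : u = (u ^ 3 ^ k) ^ m := by
    rw [← pow_mul, ← Nat.div_add_mod (3 ^ k * m) 56, pow_add, pow_mul, h56, hm.2]
    simp
  rw [h4]
  exact Subgroup.pow_mem _ hk m

/-- elements acting like elements of `D` -/
theorem act_comm {D W : Subgroup G} (h : Fr D W) {u u' a b : G} (ha : a ∈ D) (hb : b ∈ D)
    (hu : ∀ d ∈ D, u * d * u⁻¹ = a * d * a⁻¹) (hu' : ∀ d ∈ D, u' * d * u'⁻¹ = b * d * b⁻¹)
    (huu : u * u' = u' * u) : a * b = b * a := by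
  have h1 : ∀ d ∈ D, (a * b) * d * (a * b)⁻¹ = (b * a) * d * (b * a)⁻¹ := by
    intro d hd
    calc (a * b) * d * (a * b)⁻¹ = a * (b * d * b⁻¹) * a⁻¹ := by group
      _ = u * (b * d * b⁻¹) * u⁻¹ := (hu _ (D.mul_mem (D.mul_mem hb hd) (D.inv_mem hb))).symm
      _ = u * (u' * d * u'⁻¹) * u⁻¹ := by rw [hu' d hd]
      _ = (u * u') * d * (u * u')⁻¹ := by group
      _ = (u' * u) * d * (u' * u)⁻¹ := by rw [huu]
      _ = u' * (u * d * u⁻¹) * u'⁻¹ := by group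
      _ = u' * (a * d * a⁻¹) * u'⁻¹ := by rw [hu d hd]
      _ = b * (a * d * a⁻¹) * b⁻¹ := hu' _ (D.mul_mem (D.mul_mem ha hd) (D.inv_mem ha))
      _ = (b * a) * d * (b * a)⁻¹ := by group
  have h2 : (b * a)⁻¹ * (a * b) = 1 := by
    refine h.cen (D.mul_mem (D.inv_mem (D.mul_mem hb ha)) (D.mul_mem ha hb)) (fun d hd => ?_)
    have e := h1 d hd
    calc (b * a)⁻¹ * (a * b) * d = (b * a)⁻¹ * ((a * b) * d * (a * b)⁻¹) * (a * b) := by group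
      _ = (b * a)⁻¹ * ((b * a) * d * (b * a)⁻¹) * (a * b) := by rw [e]
      _ = d * ((b * a)⁻¹ * (a * b)) := by group
  calc a * b = (b * a) * ((b * a)⁻¹ * (a * b)) := by group
    _ = b * a := by rw [h2, mul_one]

/-- if the images commute then the commutator acts trivially -/
theorem act_comm' {D W : Subgroup G} (h : Fr D W) {u u' a b : G} (ha : a ∈ D) (hb : b ∈ D)
    (hu : ∀ d ∈ D, u * d * u⁻¹ = a * d * a⁻¹) (hu' : ∀ d ∈ D, u' * d * u'⁻¹ = b * d * b⁻¹)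
    (hab : a * b = b * a) : ∀ d ∈ D, (u * u' * u⁻¹ * u'⁻¹) * d = d * (u * u' * u⁻¹ * u'⁻¹) := by
  intro d hd
  have hinv : ∀ d ∈ D, u⁻¹ * d * u = a⁻¹ * d * a := by
    intro d hd
    have := hu (a⁻¹ * d * a) (D.mul_mem (D.mul_mem (D.inv_mem ha) hd) ha)
    calc u⁻¹ * d * u = u⁻¹ * (a * (a⁻¹ * d * a) * a⁻¹) * u := by group
      _ = u⁻¹ * (u * (a⁻¹ * d * a) * u⁻¹) * u := by rw [this]
      _ = a⁻¹ * d * a := by group
  have hinv' : ∀ d ∈ D, u'⁻¹ * d * u' = b⁻¹ * d * b := by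
    intro d hd
    have := hu' (b⁻¹ * d * b) (D.mul_mem (D.mul_mem (D.inv_mem hb) hd) hb)
    calc u'⁻¹ * d * u' = u'⁻¹ * (b * (b⁻¹ * d * b) * b⁻¹) * u' := by group
      _ = u'⁻¹ * (u' * (b⁻¹ * d * b) * u'⁻¹) * u' := by rw [this]
      _ = b⁻¹ * d * b := by group
  have m1 : b⁻¹ * d * b ∈ D := D.mul_mem (D.mul_mem (D.inv_mem hb) hd) hb
  have m2 : a⁻¹ * (b⁻¹ * d * b) * a ∈ D := D.mul_mem (D.mul_mem (D.inv_mem ha) m1) ha
  have m3 : b * (a⁻¹ * (b⁻¹ * d * b) * a) * b⁻¹ ∈ D := D.mul_mem (D.mul_mem hb m2) (D.inv_mem hb)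
  have e : (u * u' * u⁻¹ * u'⁻¹) * d * (u * u' * u⁻¹ * u'⁻¹)⁻¹ = d := by
    calc (u * u' * u⁻¹ * u'⁻¹) * d * (u * u' * u⁻¹ * u'⁻¹)⁻¹
        = u * (u' * (u⁻¹ * (u'⁻¹ * d * u') * u) * u'⁻¹) * u⁻¹ := by group
      _ = u * (u' * (u⁻¹ * (b⁻¹ * d * b) * u) * u'⁻¹) * u⁻¹ := by rw [hinv' d hd]
      _ = u * (u' * (a⁻¹ * (b⁻¹ * d * b) * a) * u'⁻¹) * u⁻¹ := by rw [hinv _ m1]
      _ = u * (b * (a⁻¹ * (b⁻¹ * d * b) * a) * b⁻¹) * u⁻¹ := by rw [hu' _ m2]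
      _ = a * (b * (a⁻¹ * (b⁻¹ * d * b) * a) * b⁻¹) * a⁻¹ := by rw [hu _ m3]
      _ = (a * b) * (b * a)⁻¹ * d * ((a * b) * (b * a)⁻¹)⁻¹ := by group
      _ = d := by rw [hab]; group
  calc (u * u' * u⁻¹ * u'⁻¹) * d
      = ((u * u' * u⁻¹ * u'⁻¹) * d * (u * u' * u⁻¹ * u'⁻¹)⁻¹) * (u * u' * u⁻¹ * u'⁻¹) := by group
    _ = d * (u * u' * u⁻¹ * u'⁻¹) := by rw [e]

theorem map_conj_eq {C : Subgroup G} [Finite C] {g : G} (h : ∀ c ∈ C, g * c * g⁻¹ ∈ C) :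
    C.map (MulAut.conj g).toMonoidHom = C := by
  apply Subgroup.eq_of_le_of_card_ge
  · rintro _ ⟨c, hc, rfl⟩
    exact h c hc
  · exact (Nat.card_congr (C.equivMapOfInjective (MulAut.conj g).toMonoidHom
      (MulAut.conj g).injective).toEquiv).le

theorem mem_map_conj {C : Subgroup G} {g c : G} (hc : c ∈ C) :
    g * c * g⁻¹ ∈ C.map (MulAut.conj g).toMonoidHom := ⟨c, hc, rfl⟩

section claim1

variable [Finite G] {T₁ T₂ : Subgroup G} {𝒞₁ 𝒞₂ : Set (Subgroup G)}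

theorem claim1 (n₁ : T₁.Normal) (n₂ : T₂.Normal) (h₁ : Fam T₁ 𝒞₁) (h₂ : Fam T₂ 𝒞₂) {x : G}
    (hx : x ∈ T₂) {k : ℕ} (hk : x ^ 3 ^ k = 1) {C : Subgroup G} (hC : C ∈ 𝒞₁) :
    ∀ c ∈ C, x * c * x⁻¹ ∈ C := by
  by_contra hcon
  obtain ⟨V, hV⟩ := h₁.fr C hC
  have hperm : ∀ (g : G) {D : Subgroup G}, D ∈ 𝒞₁ → D.map (MulAut.conj g).toMonoidHom ∈ 𝒞₁ := by
    intro g D hD
    refine h₁.conj_mem (fun t ht => n₁.conj_mem t ht g) (fun t ht => ?_) hD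
    have := n₁.conj_mem t ht g⁻¹
    rwa [inv_inv] at this
  -- the three components
  have hC1 : C.map (MulAut.conj x).toMonoidHom ∈ 𝒞₁ := hperm x hC
  have hC2 : C.map (MulAut.conj (x * x)).toMonoidHom ∈ 𝒞₁ := hperm (x * x) hC
  have hne1 : C ≠ C.map (MulAut.conj x).toMonoidHom := by
    intro h0
    apply hcon
    intro c hc
    rw [h0]
    exact mem_map_conj hc
  have hne2 : C ≠ C.map (MulAut.conj (x * x)).toMonoidHom := by
    intro h0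
    apply hcon
    have hn : x * x ∈ Subgroup.normalizer (C : Set G) := by
      haveI := hV.finC
      rw [Subgroup.mem_normalizer_iff]
      intro c
      constructor
      · intro hc
        rw [h0]
        exact mem_map_conj hc
      · intro hc
        rw [h0] at hc
        obtain ⟨d, hd, hde⟩ := hc
        have : d = c := by
          have h5 : (x * x) * d * (x * x)⁻¹ = (x * x) * c * (x * x)⁻¹ := hde
          simpa using h5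
        rwa [← this]
    obtain ⟨j, hj⟩ := pow_back (m := 2) hk (by norm_num)
    have hn' : x ∈ Subgroup.normalizer (C : Set G) := by
      rw [← hj, pow_two]
      exact Subgroup.pow_mem _ hn j
    intro c hc
    exact (Subgroup.mem_normalizer_iff.1 hn' c).1 hc
  have hne12 : C.map (MulAut.conj x).toMonoidHom ≠ C.map (MulAut.conj (x * x)).toMonoidHom := by
    intro h0
    apply hcon
    intro c hc
    have h5 : (x * x) * c * (x * x)⁻¹ ∈ C.map (MulAut.conj x).toMonoidHom := by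
      rw [h0]; exact mem_map_conj hc
    obtain ⟨d, hd, hde⟩ := h5
    have h6 : x * d * x⁻¹ = (x * x) * c * (x * x)⁻¹ := hde
    have h7 : d = x * c * x⁻¹ := by
      calc d = x⁻¹ * (x * d * x⁻¹) * x := by group
        _ = x * c * x⁻¹ := by rw [h6]; group
    rwa [← h7]
  have S₂n : ∀ (g : G), ∀ s ∈ sSup 𝒞₂, g * s * g⁻¹ ∈ sSup 𝒞₂ := fun g =>
    h₂.sup_inv (fun t ht => n₂.conj_mem t ht g)
  -- the elements `c⁻¹ * (x c x⁻¹)`
  have hell : ∀ c ∈ C, c⁻¹ * (x * c * x⁻¹) ∈ sSup 𝒞₂ := by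
    intro c hc
    apply h₂.mem_of
    · have := T₂.mul_mem (n₂.conj_mem x hx c⁻¹) (T₂.inv_mem hx)
      rwa [show c⁻¹ * (x * c * x⁻¹) = c⁻¹ * x * c⁻¹⁻¹ * x⁻¹ by group]
    · apply h₁.pow56
      exact Subgroup.mul_mem _ (Subgroup.inv_mem _ (le_sSup hC hc)) (le_sSup hC1 (mem_map_conj hc))
  -- commuting facts
  have com1 : ∀ c ∈ C, ∀ d ∈ C, c * (x * d * x⁻¹) = (x * d * x⁻¹) * c := fun c hc d hd =>
    h₁.comm C hC _ hC1 hne1 c hc _ (mem_map_conj hd)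
  -- V is contained in the second join
  have hVS : V ≤ sSup 𝒞₂ := by
    have hb : C ⊓ sSup 𝒞₂ ≠ ⊥ := by
      intro hb
      obtain ⟨c, hc, hc1⟩ : ∃ c ∈ C, c ≠ 1 := by
        obtain ⟨v, hv, hv1⟩ := hV.exists_ne
        exact ⟨v, hV.le hv, hv1⟩
      apply hc1
      refine hV.cen hc (fun d hd => ?_)
      have h5 : d * c⁻¹ * d⁻¹ * c ∈ C ⊓ sSup 𝒞₂ := by
        refine Subgroup.mem_inf.2 ⟨C.mul_mem (C.mul_mem (C.mul_mem hd (C.inv_mem hc))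
          (C.inv_mem hd)) hc, ?_⟩
        have h6 := Subgroup.mul_mem _ (S₂n d _ (hell c hc)) (Subgroup.inv_mem _ (hell c hc))
        have h7 : d * (c⁻¹ * (x * c * x⁻¹)) * d⁻¹ * (c⁻¹ * (x * c * x⁻¹))⁻¹ = d * c⁻¹ * d⁻¹ * c := by
          have e1 : (x * c * x⁻¹) * d⁻¹ = d⁻¹ * (x * c * x⁻¹) :=
            (com1 d⁻¹ (C.inv_mem hd) c hc).symm
          calc d * (c⁻¹ * (x * c * x⁻¹)) * d⁻¹ * (c⁻¹ * (x * c * x⁻¹))⁻¹
              = d * c⁻¹ * ((x * c * x⁻¹) * d⁻¹) * (x * c * x⁻¹)⁻¹ * c := by group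
            _ = d * c⁻¹ * (d⁻¹ * (x * c * x⁻¹)) * (x * c * x⁻¹)⁻¹ * c := by rw [e1]
            _ = d * c⁻¹ * d⁻¹ * c := by group
        rwa [h7] at h6
      rw [hb, Subgroup.mem_bot] at h5
      have h8 : d * c⁻¹ = c⁻¹ * d := by
        calc d * c⁻¹ = (d * c⁻¹ * d⁻¹ * c) * c⁻¹ * d := by group
          _ = c⁻¹ * d := by rw [h5]; group
      calc c * d = c * (d * c⁻¹) * c := by group
        _ = c * (c⁻¹ * d) * c := by rw [h8]
        _ = d * c := by group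
    obtain ⟨h5, -⟩ := hV.nor (N := C ⊓ sSup 𝒞₂) inf_le_left (fun c hc n hn =>
      Subgroup.mem_inf.2 ⟨C.mul_mem (C.mul_mem hc (Subgroup.mem_inf.1 hn).1) (C.inv_mem hc),
        S₂n c n (Subgroup.mem_inf.1 hn).2⟩) hb
    exact h5.trans inf_le_right
  obtain ⟨v₀, hv₀, hv₀1⟩ := hV.exists_ne
  obtain ⟨c₀, hc₀, hc₀V⟩ := hV.exists_not
  -- choose D
  obtain ⟨D, hD, hDv⟩ : ∃ D ∈ 𝒞₂, ¬ ∀ d ∈ D, v₀ * d = d * v₀ := by
    by_contra h0
    push Not at h0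
    exact hv₀1 (h₂.cenS (hVS hv₀) h0)
  obtain ⟨W, hW⟩ := h₂.fr D hD
  have hDn : ∀ t ∈ T₂, ∀ d ∈ D, t * d * t⁻¹ ∈ D := h₂.nrm D hD
  have hA : V ⊓ Subgroup.centralizer (D : Set G) = ⊥ := by
    have h5 : V ⊓ Subgroup.centralizer (D : Set G) = ⊥ ∨
        V ⊓ Subgroup.centralizer (D : Set G) = V := by
      refine hV.irr inf_le_left (C.inv_mem hc₀) (fun h0 => hc₀V ?_) ?_
      · have := V.inv_mem h0
        rwa [inv_inv] at this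
      · intro a ha
        have haV := (Subgroup.mem_inf.1 ha).1
        have haD := (Subgroup.mem_inf.1 ha).2
        rw [Subgroup.mem_centralizer_iff] at haD
        refine Subgroup.mem_inf.2 ⟨hV.nrm _ (C.inv_mem hc₀) a haV, ?_⟩
        have e0 : c₀⁻¹ * a * c₀⁻¹⁻¹ =
            (c₀⁻¹ * (x * c₀ * x⁻¹)) * a * (c₀⁻¹ * (x * c₀ * x⁻¹))⁻¹ := by
          have e1 := com1 a (hV.le haV) c₀ hc₀
          calc c₀⁻¹ * a * c₀⁻¹⁻¹ = c₀⁻¹ * (a * (x * c₀ * x⁻¹)) * (x * c₀ * x⁻¹)⁻¹ * c₀ := by group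
            _ = c₀⁻¹ * ((x * c₀ * x⁻¹) * a) * (x * c₀ * x⁻¹)⁻¹ * c₀ := by rw [e1]
            _ = _ := by group
        rw [e0, Subgroup.mem_centralizer_iff]
        intro d hd
        set l := c₀⁻¹ * (x * c₀ * x⁻¹) with hl
        have hlT : l ∈ T₂ := h₂.sup_le (hell c₀ hc₀)
        have hd' : l⁻¹ * d * l ∈ D := by
          have := hDn l⁻¹ (T₂.inv_mem hlT) d hd
          rwa [inv_inv] at this
        have e2 := haD _ hd'
        calc d * (l * a * l⁻¹) = l * ((l⁻¹ * d * l) * a) * l⁻¹ := by group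
          _ = l * (a * (l⁻¹ * d * l)) * l⁻¹ := by rw [e2]
          _ = (l * a * l⁻¹) * d := by group
    rcases h5 with h5 | h5
    · exact h5
    · exfalso
      apply hDv
      intro d hd
      have h6 : v₀ ∈ V ⊓ Subgroup.centralizer (D : Set G) := by rw [h5]; exact hv₀
      exact ((Subgroup.mem_centralizer_iff.1 (Subgroup.mem_inf.1 h6).2) d hd).symm
  -- images in D
  have hact : ∀ u ∈ sSup 𝒞₂, ∃ a ∈ D, ∀ d ∈ D, u * d * u⁻¹ = a * d * a⁻¹ := by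
    intro u hu
    obtain ⟨f, f1, f2, -, -⟩ := dec h₂.comm hu
    exact ⟨f D, f1 D hD, f2 D hD⟩
  have hactW : ∀ u ∈ sSup 𝒞₂, u ^ 8 = 1 → ∀ a ∈ D, (∀ d ∈ D, u * d * u⁻¹ = a * d * a⁻¹) → a ∈ W := by
    intro u hu hu8 a ha hua
    by_contra haW
    have h7 := hW.pow a ha haW
    have h8 : ∀ n : ℕ, ∀ d ∈ D, u ^ n * d * (u ^ n)⁻¹ = a ^ n * d * (a ^ n)⁻¹ := by
      intro n
      induction n with
      | zero => intro d _; simp
      | succ n ih =>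
        intro d hd
        have hm : a ^ n * d * (a ^ n)⁻¹ ∈ D :=
          D.mul_mem (D.mul_mem (D.pow_mem ha n) hd) (D.inv_mem (D.pow_mem ha n))
        calc u ^ (n + 1) * d * (u ^ (n + 1))⁻¹ = u * (u ^ n * d * (u ^ n)⁻¹) * u⁻¹ := by
              rw [pow_succ']; group
          _ = u * (a ^ n * d * (a ^ n)⁻¹) * u⁻¹ := by rw [ih d hd]
          _ = a * (a ^ n * d * (a ^ n)⁻¹) * a⁻¹ := hua _ hm
          _ = a ^ (n + 1) * d * (a ^ (n + 1))⁻¹ := by rw [pow_succ']; group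
    have h9 : a ^ 8 = 1 := by
      refine hW.cen (D.pow_mem ha 8) (fun d hd => ?_)
      have h10 := h8 8 d hd
      rw [hu8] at h10
      calc a ^ 8 * d = (a ^ 8 * d * (a ^ 8)⁻¹) * a ^ 8 := by group
        _ = (1 * d * 1⁻¹) * a ^ 8 := by rw [← h10]
        _ = d * a ^ 8 := by group
    apply haW
    have h11 : a = 1 := by
      calc a = a ^ 8 * (a ^ 7)⁻¹ := by group
        _ = 1 := by rw [h9, h7]; group
    rw [h11]
    exact W.one_mem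
  have hv8 : ∀ v ∈ V, v ^ 8 = 1 := by
    intro v hv
    haveI := hV.finV
    have h5 : (⟨v, hv⟩ : V) ^ Nat.card V = 1 := pow_card_eq_one'
    rw [hV.cV] at h5
    exact congrArg Subtype.val h5
  -- the element w₀ from the third component
  set w₀ := (x * x) * v₀ * (x * x)⁻¹ with hw₀
  have hw₀S : w₀ ∈ sSup 𝒞₂ := S₂n (x * x) v₀ (hVS hv₀)
  obtain ⟨b, hb, hbw⟩ := hact w₀ hw₀S
  have hbW : b ∈ W := hactW w₀ hw₀S (by rw [hw₀, conj_pow, hv8 v₀ hv₀]; group) b hb hbw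
  have hb1 : b ≠ 1 := by
    intro h0
    rw [h0] at hbw
    apply hv₀1
    have h5 : v₀ ∈ V ⊓ Subgroup.centralizer (D : Set G) := by
      refine Subgroup.mem_inf.2 ⟨hv₀, ?_⟩
      rw [Subgroup.mem_centralizer_iff]
      intro d hd
      have hxx : x * x ∈ T₂ := T₂.mul_mem hx hx
      have e1 := hbw _ (hDn (x * x) hxx d hd)
      have e2 : v₀ * d * v₀⁻¹ = d := by
        calc v₀ * d * v₀⁻¹ = (x * x)⁻¹ * (w₀ * ((x * x) * d * (x * x)⁻¹) * w₀⁻¹) * (x * x) := by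
              rw [hw₀]; group
          _ = d := by rw [e1]; group
      calc d * v₀ = (v₀ * d * v₀⁻¹) * v₀ := by rw [e2]
        _ = v₀ * d := by group
    rw [hA, Subgroup.mem_bot] at h5
    exact h5
  -- the element l₀
  set l₀ := c₀⁻¹ * (x * c₀ * x⁻¹) with hl₀
  have hl₀S : l₀ ∈ sSup 𝒞₂ := hell c₀ hc₀
  obtain ⟨e, he, hel⟩ := hact l₀ hl₀S
  have hlw : l₀ * w₀ = w₀ * l₀ := by
    have e1 : c₀⁻¹ * w₀ = w₀ * c₀⁻¹ :=
      h₁.comm C hC _ hC2 hne2 _ (C.inv_mem hc₀) _ (mem_map_conj (hV.le hv₀))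
    have e2 : (x * c₀ * x⁻¹) * w₀ = w₀ * (x * c₀ * x⁻¹) :=
      h₁.comm _ hC1 _ hC2 hne12 _ (mem_map_conj hc₀) _ (mem_map_conj (hV.le hv₀))
    calc l₀ * w₀ = c₀⁻¹ * ((x * c₀ * x⁻¹) * w₀) := by rw [hl₀]; group
      _ = (c₀⁻¹ * w₀) * (x * c₀ * x⁻¹) := by rw [e2]; group
      _ = w₀ * l₀ := by rw [e1, hl₀]; group
  have heb : e * b = b * e := act_comm hW he hb hel hbw hlw
  have heW : e ∈ W := hW.cent b hbW hb1 e he heb
  obtain ⟨a, ha, hav⟩ := hact v₀ (hVS hv₀)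
  have haW : a ∈ W := hactW v₀ (hVS hv₀) (hv8 v₀ hv₀) a ha hav
  have hfin := act_comm' hW ha he hav hel (hW.comm a haW e heW)
  have hcomm0 : v₀ * l₀ * v₀⁻¹ * l₀⁻¹ = v₀ * (c₀⁻¹ * v₀⁻¹ * c₀⁻¹⁻¹) := by
    have e1 := com1 v₀⁻¹ (hV.le (V.inv_mem hv₀)) c₀ hc₀
    calc v₀ * l₀ * v₀⁻¹ * l₀⁻¹ = v₀ * c₀⁻¹ * ((x * c₀ * x⁻¹) * v₀⁻¹) * (x * c₀ * x⁻¹)⁻¹ * c₀ := by
          rw [hl₀]; group
      _ = v₀ * c₀⁻¹ * (v₀⁻¹ * (x * c₀ * x⁻¹)) * (x * c₀ * x⁻¹)⁻¹ * c₀ := by rw [e1]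
      _ = _ := by group
  have hmem : v₀ * l₀ * v₀⁻¹ * l₀⁻¹ ∈ V ⊓ Subgroup.centralizer (D : Set G) := by
    refine Subgroup.mem_inf.2 ⟨?_, ?_⟩
    · rw [hcomm0]
      exact V.mul_mem hv₀ (hV.nrm _ (C.inv_mem hc₀) _ (V.inv_mem hv₀))
    · rw [Subgroup.mem_centralizer_iff]
      intro d hd
      exact (hfin d hd).symm
  rw [hA, Subgroup.mem_bot, hcomm0] at hmem
  apply hc₀V
  refine hV.cent v₀ hv₀ hv₀1 c₀ hc₀ ?_
  have e1 : c₀⁻¹ * v₀⁻¹ * c₀ = v₀⁻¹ := by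
    calc c₀⁻¹ * v₀⁻¹ * c₀ = v₀⁻¹ * (v₀ * (c₀⁻¹ * v₀⁻¹ * c₀⁻¹⁻¹)) := by group
      _ = v₀⁻¹ := by rw [hmem, mul_one]
  calc c₀ * v₀ = c₀ * (v₀⁻¹)⁻¹ := by group
    _ = c₀ * (c₀⁻¹ * v₀⁻¹ * c₀)⁻¹ := by rw [e1]
    _ = v₀ * c₀ := by group

end claim1

end Pool.Agent.H596R3
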