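import Pool.Agent.H596R3.Sup

set_option autoImplicit false
set_option linter.all false

namespace Pool.Agent.H596R3

variable {G : Type} [Group G]

/-- the normaliser criterion for finite subgroups -/
theorem mem_norm_of {C : Subgroup G} [Finite C] {g : G} (h : ∀ c ∈ C, g * c * g⁻¹ ∈ C) :
    g ∈ Subgroup.normalizer (C : Set G) := by
  rw [Subgroup.mem_normalizer_iff_map_conj_eq]
  exact map_conj_eq h

theorem norm_conj {C : Subgroup G} {g : G} (h : g ∈ Subgroup.normalizer (C : Set G)) :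
    ∀ c ∈ C, g * c * g⁻¹ ∈ C := fun c hc => (Subgroup.mem_normalizer_iff.1 h c).1 hc

section

variable [Finite G] {M N : Subgroup G} {𝒞₁ 𝒞₂ : Set (Subgroup G)}

theorem claim1' (n₁ : M.Normal) (n₂ : N.Normal) (h₁ : Fam (T3 M) 𝒞₁) (h₂ : Fam (T3 N) 𝒞₂)
    {C : Subgroup G} (hC : C ∈ 𝒞₁) : ∀ t ∈ T3 N, ∀ c ∈ C, t * c * t⁻¹ ∈ C := by
  have h : T3 N ≤ Subgroup.normalizer (C : Set G) := by
    refine (Subgroup.closure_le _).2 ?_
    rintro x ⟨hx, k, hk⟩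
    exact mem_norm_of (claim1 (T3_normal n₁) (T3_normal n₂) h₁ h₂ (mem_T3 hx hk) hk hC)
  exact fun t ht => norm_conj (h ht)

theorem claim2 (n₁ : M.Normal) (n₂ : N.Normal) (h₁ : Fam (T3 M) 𝒞₁) (h₂ : Fam (T3 N) 𝒞₂)
    {C D : Subgroup G} (hC : C ∈ 𝒞₁) (hD : D ∈ 𝒞₂) (hne : C ≠ D) :
    ∀ c ∈ C, ∀ d ∈ D, c * d = d * c := by
  have t₁ := T3_normal n₁
  have t₂ := T3_normal n₂
  have hCn := claim1' n₁ n₂ h₁ h₂ hC
  have hDn := claim1' n₂ n₁ h₂ h₁ hD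
  obtain ⟨V, hV⟩ := h₁.fr C hC
  obtain ⟨W, hW⟩ := h₂.fr D hD
  have hDC : ∀ d ∈ D, ∀ c ∈ C, d * c * d⁻¹ ∈ C := fun d hd => hCn d (h₂.le D hD hd)
  have hCD : ∀ c ∈ C, ∀ d ∈ D, c * d * c⁻¹ ∈ D := fun c hc => hDn c (h₁.le C hC hc)
  by_cases hb : C ⊓ D = ⊥
  · exact comm_of_inf_bot hb hDC hCD
  exfalso
  have S₂n : ∀ (g : G), ∀ s ∈ sSup 𝒞₂, g * s * g⁻¹ ∈ sSup 𝒞₂ := fun g =>
    h₂.sup_inv (fun t ht => t₂.conj_mem t ht g)
  have hbD : D ⊓ C ≠ ⊥ := by rwa [inf_comm]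
  obtain ⟨hVD, -⟩ := hV.nor (N := C ⊓ D) inf_le_left (fun c hc n hn =>
      Subgroup.mem_inf.2 ⟨C.mul_mem (C.mul_mem hc (Subgroup.mem_inf.1 hn).1) (C.inv_mem hc),
        hCD c hc n (Subgroup.mem_inf.1 hn).2⟩) hb
  obtain ⟨hWC, -⟩ := hW.nor (N := D ⊓ C) inf_le_left (fun c hc n hn =>
      Subgroup.mem_inf.2 ⟨D.mul_mem (D.mul_mem hc (Subgroup.mem_inf.1 hn).1) (D.inv_mem hc),
        hDC c hc n (Subgroup.mem_inf.1 hn).2⟩) hbD
  have hCS : C ⊓ sSup 𝒞₂ ≤ V := by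
    by_cases hb' : C ⊓ sSup 𝒞₂ = ⊥
    · rw [hb']; exact bot_le
    · obtain ⟨-, h3⟩ := hV.nor (N := C ⊓ sSup 𝒞₂) inf_le_left (fun c hc n hn =>
        Subgroup.mem_inf.2 ⟨C.mul_mem (C.mul_mem hc (Subgroup.mem_inf.1 hn).1) (C.inv_mem hc),
          S₂n c n (Subgroup.mem_inf.1 hn).2⟩) hb'
      rcases h3 with h3 | h3
      · rw [h3]
      · exfalso
        have hle : C ≤ sSup 𝒞₂ := by
          rw [← h3]; exact inf_le_right
        have hC2 : C ∈ 𝒞₂ := h₂.ks hV hle (fun s hs => hCn s (h₂.sup_le hs))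
        exact hb (hV.inf_bot (h₂.comm C hC2 D hD hne))
  have hcent : T3 N ≤ Subgroup.centralizer (C : Set G) := by
    refine (Subgroup.closure_le _).2 ?_
    rintro x ⟨hx, k, hk⟩
    have hxT : x ∈ T3 N := mem_T3 hx hk
    rw [SetLike.mem_coe, Subgroup.mem_centralizer_iff]
    intro c hc
    refine (hV.three hk (fun c hc => ?_) c hc).symm
    apply hCS
    have e1 : x * c * x⁻¹ * c⁻¹ ∈ C := C.mul_mem (hCn x hxT c hc) (C.inv_mem hc)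
    refine Subgroup.mem_inf.2 ⟨e1, ?_⟩
    apply h₂.mem_of
    · have := (T3 N).mul_mem hxT (t₂.conj_mem x⁻¹ ((T3 N).inv_mem hxT) c)
      rwa [show x * c * x⁻¹ * c⁻¹ = x * (c * x⁻¹ * c⁻¹) by group]
    · exact hV.pow56 e1
  obtain ⟨w, hw, hw1⟩ := hW.exists_ne
  apply hw1
  refine hW.cen (hW.le hw) (fun d hd => ?_)
  exact (Subgroup.mem_centralizer_iff.1 (hcent (h₂.le D hD hd)) w
    (Subgroup.mem_inf.1 (hWC hw)).2)

theorem pow_mod_right {K : Subgroup G} (hK : K.Normal) {x y : G} (hy : y ∈ K) (n : ℕ) :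
    ∃ z ∈ K, (x * y) ^ n = x ^ n * z := by
  refine ⟨(x ^ n)⁻¹ * (x * y) ^ n, ?_, by group⟩
  rw [← QuotientGroup.eq_one_iff]
  have : ((y : G) : G ⧸ K) = 1 := (QuotientGroup.eq_one_iff y).2 hy
  rw [QuotientGroup.mk_mul, QuotientGroup.mk_inv, QuotientGroup.mk_pow, QuotientGroup.mk_pow,
    QuotientGroup.mk_mul, this]
  simp

theorem pow_mod_left {K : Subgroup G} (hK : K.Normal) {x y : G} (hx : x ∈ K) (n : ℕ) :
    ∃ z ∈ K, (x * y) ^ n = z * y ^ n := by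
  refine ⟨(x * y) ^ n * (y ^ n)⁻¹, ?_, by group⟩
  rw [← QuotientGroup.eq_one_iff]
  have : ((x : G) : G ⧸ K) = 1 := (QuotientGroup.eq_one_iff x).2 hx
  rw [QuotientGroup.mk_mul, QuotientGroup.mk_inv, QuotientGroup.mk_pow, QuotientGroup.mk_pow,
    QuotientGroup.mk_mul, this]
  simp

theorem T3_sup (n₁ : M.Normal) (n₂ : N.Normal) : T3 (M ⊔ N) = T3 M ⊔ T3 N := by
  have t₁ := T3_normal n₁
  have t₂ := T3_normal n₂
  apply le_antisymm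
  · refine (Subgroup.closure_le _).2 ?_
    rintro x ⟨hx, k, hk⟩
    obtain ⟨y, hy, z, hz, rfl⟩ := Subgroup.mem_sup_of_normal_right.1 hx
    obtain ⟨a, m, hm, h⟩ := card_split G
    obtain ⟨u, hu, e1⟩ := pow_mod_left n₁ (x := y) (y := z) hy m
    have hzm : z ^ m ∈ T3 N := mem_T3 (N.pow_mem hz m) (h z).1
    obtain ⟨v, hv, e2⟩ := pow_mod_right t₂ (x := u) (y := z ^ m) hzm m
    have hum : u ^ m ∈ T3 M := mem_T3 (M.pow_mem hu m) (h u).1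
    obtain ⟨j, hj⟩ := pow_back (m := m * m) hk (Nat.Coprime.mul_left hm hm)
    rw [SetLike.mem_coe, ← hj]
    apply Subgroup.pow_mem
    rw [pow_mul, e1, e2]
    exact Subgroup.mul_mem_sup hum hv
  · exact sup_le (T3_mono le_sup_left) (T3_mono le_sup_right)

theorem Fam.uni {T : Subgroup G} {𝒞 : Set (Subgroup G)} (h : Fam T 𝒞) {a m : ℕ}
    (hm : Nat.Coprime m 3) (hc : ∀ g : G, (g ^ m) ^ 3 ^ a = 1 ∧ (g ^ 3 ^ a) ^ m = 1) {t : G}
    (ht : t ∈ T) : t ^ 3 ^ a ∈ sSup 𝒞 := by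
  obtain ⟨k, hk⟩ := h.pg t ht
  have h1 : ((t ^ 3 ^ a) ^ 3 ^ k) ∈ sSup 𝒞 := by
    rw [← pow_mul, mul_comm, pow_mul]
    exact Subgroup.pow_mem _ hk _
  have h2 : Nat.Coprime (3 ^ k) (orderOf (t ^ 3 ^ a)) := by
    have h3 : orderOf (t ^ 3 ^ a) ∣ m := orderOf_dvd_of_pow_eq_one (hc t).2
    exact Nat.Coprime.coprime_dvd_right h3 (Nat.Coprime.pow_left k hm.symm)
  obtain ⟨j, hj⟩ := exists_pow_eq_self_of_coprime h2
  rw [← hj]
  exact Subgroup.pow_mem _ h1 j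

theorem XS_sup (n₁ : M.Normal) (n₂ : N.Normal) (x₁ : XS M) (x₂ : XS N) : XS (M ⊔ N) := by
  obtain ⟨𝒞₁, h₁⟩ := x₁
  obtain ⟨𝒞₂, h₂⟩ := x₂
  have t₁ := T3_normal n₁
  have t₂ := T3_normal n₂
  refine ⟨𝒞₁ ∪ 𝒞₂, ?_⟩
  rw [T3_sup n₁ n₂]
  refine ⟨?_, ?_, ?_, ?_, ?_⟩
  · rintro C (hC | hC)
    · exact h₁.fr C hC
    · exact h₂.fr C hC
  · rintro C (hC | hC)
    · exact (h₁.le C hC).trans le_sup_left
    · exact (h₂.le C hC).trans le_sup_right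
  · rintro C (hC | hC)
    · obtain ⟨V, hV⟩ := h₁.fr C hC
      haveI := hV.finC
      have hle : T3 M ⊔ T3 N ≤ Subgroup.normalizer (C : Set G) :=
        sup_le (fun t ht => mem_norm_of (h₁.nrm C hC t ht))
          (fun t ht => mem_norm_of (claim1' n₁ n₂ h₁ h₂ hC t ht))
      exact fun t ht => norm_conj (hle ht)
    · obtain ⟨V, hV⟩ := h₂.fr C hC
      haveI := hV.finC
      have hle : T3 M ⊔ T3 N ≤ Subgroup.normalizer (C : Set G) :=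
        sup_le (fun t ht => mem_norm_of (claim1' n₂ n₁ h₂ h₁ hC t ht))
          (fun t ht => mem_norm_of (h₂.nrm C hC t ht))
      exact fun t ht => norm_conj (hle ht)
  · rintro C (hC | hC) D (hD | hD) hne
    · exact h₁.comm C hC D hD hne
    · exact claim2 n₁ n₂ h₁ h₂ hC hD hne
    · exact claim2 n₂ n₁ h₂ h₁ hC hD hne
    · exact h₂.comm C hC D hD hne
  · intro t ht
    obtain ⟨y, hy, z, hz, rfl⟩ := Subgroup.mem_sup_of_normal_right.1 ht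
    obtain ⟨a, m, hm, h⟩ := card_split G
    have S₂n : (sSup 𝒞₂).Normal := ⟨fun s hs g => h₂.sup_inv (fun t ht => t₂.conj_mem t ht g) s hs⟩
    obtain ⟨u, hu, e1⟩ := pow_mod_left t₁ (x := y) (y := z) hy (3 ^ a)
    obtain ⟨v, hv, e2⟩ := pow_mod_right S₂n (x := u) (y := z ^ 3 ^ a) (h₂.uni hm h hz) (3 ^ a)
    refine ⟨a + a, ?_⟩
    rw [pow_add 3, pow_mul, e1, e2, sSup_union]
    exact Subgroup.mul_mem_sup (h₁.uni hm h hu) hv

end

end Pool.Agent.H596R3
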